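import Pool.Agent.Lib.MP_f761d9_an.Select

/-!
# The case of a complemented copy of `c_0`
-/

set_option autoImplicit false

namespace Pool.Agent.Lib.MP_f761d9_an

open Filter Topology

variable {X : Type*} [NormedAddCommGroup X] [NormedSpace ℝ X]

lemma sum_abs_le (v : ℕ → X) (R : ℝ) (hR : ∀ F : Finset ℕ, ‖∑ n ∈ F, v n‖ ≤ R)
    (φ : X →L[ℝ] ℝ) (F : Finset ℕ) : ∑ n ∈ F, |φ (v n)| ≤ 2 * R * ‖φ‖ := by
  have h1 : ∑ n ∈ F, |φ (v n)| = φ (∑ n ∈ F with 0 ≤ φ (v n), v n)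
      - φ (∑ n ∈ F with ¬ 0 ≤ φ (v n), v n) := by
    rw [← Finset.sum_filter_add_sum_filter_not F (fun n => 0 ≤ φ (v n)), map_sum, map_sum,
      sub_eq_add_neg, ← Finset.sum_neg_distrib]
    congr 1
    · refine Finset.sum_congr rfl fun n hn => ?_
      exact abs_of_nonneg (Finset.mem_filter.mp hn).2
    · refine Finset.sum_congr rfl fun n hn => ?_
      exact abs_of_neg (not_le.mp (Finset.mem_filter.mp hn).2)
  rw [h1]
  have h2 := φ.le_opNorm (∑ n ∈ F with 0 ≤ φ (v n), v n)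
  have h3 := φ.le_opNorm (∑ n ∈ F with ¬ 0 ≤ φ (v n), v n)
  have h4 := hR (F.filter fun n => 0 ≤ φ (v n))
  have h5 := hR (F.filter fun n => ¬ 0 ≤ φ (v n))
  rw [Real.norm_eq_abs] at h2 h3
  have h6 := (abs_le.mp h2).2
  have h7 := (abs_le.mp h3).1
  have h8 : ‖φ‖ * ‖∑ n ∈ F with 0 ≤ φ (v n), v n‖ ≤ ‖φ‖ * R :=
    mul_le_mul_of_nonneg_left h4 (norm_nonneg _)
  have h9 : ‖φ‖ * ‖∑ n ∈ F with ¬ 0 ≤ φ (v n), v n‖ ≤ ‖φ‖ * R :=
    mul_le_mul_of_nonneg_left h5 (norm_nonneg _)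
  linarith

lemma tendsto_of_bounded_sums (v : ℕ → X) (R : ℝ) (hR : ∀ F : Finset ℕ, ‖∑ n ∈ F, v n‖ ≤ R)
    (φ : X →L[ℝ] ℝ) : Tendsto (fun n => φ (v n)) atTop (𝓝 0) := by
  have h1 : Summable fun n => |φ (v n)| :=
    summable_of_sum_le (fun _ => abs_nonneg _) (sum_abs_le v R hR φ)
  exact (summable_abs_iff.mp h1).tendsto_atTop_zero

lemma norm_sum_smul_le (v : ℕ → X) (R : ℝ) (hR : ∀ F : Finset ℕ, ‖∑ n ∈ F, v n‖ ≤ R)
    (a : ℕ → ℝ) (A : ℝ) (hA : 0 ≤ A) (F : Finset ℕ) (ha : ∀ n ∈ F, |a n| ≤ A) :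
    ‖∑ n ∈ F, a n • v n‖ ≤ 2 * R * A := by
  obtain ⟨φ, h1, h2⟩ := exists_dual_vector'' ℝ (∑ n ∈ F, a n • v n)
  have hR0 : 0 ≤ R := (norm_nonneg _).trans (hR ∅)
  have h3 : ‖∑ n ∈ F, a n • v n‖ = ∑ n ∈ F, a n * φ (v n) := by
    have : ((‖∑ n ∈ F, a n • v n‖ : ℝ)) = φ (∑ n ∈ F, a n • v n) := by rw [h2]; rfl
    rw [this, map_sum]
    exact Finset.sum_congr rfl fun n _ => by rw [map_smul, smul_eq_mul]
  rw [h3]
  calc ∑ n ∈ F, a n * φ (v n) ≤ ∑ n ∈ F, A * |φ (v n)| := by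
        refine Finset.sum_le_sum fun n hn => ?_
        calc a n * φ (v n) ≤ |a n * φ (v n)| := le_abs_self _
          _ = |a n| * |φ (v n)| := abs_mul _ _
          _ ≤ A * |φ (v n)| := mul_le_mul_of_nonneg_right (ha n hn) (abs_nonneg _)
    _ = A * ∑ n ∈ F, |φ (v n)| := by rw [Finset.mul_sum]
    _ ≤ A * (2 * R * ‖φ‖) := mul_le_mul_of_nonneg_left (sum_abs_le v R hR φ F) hA
    _ ≤ A * (2 * R * 1) := by gcongr
    _ = 2 * R * A := by ring

omit [NormedSpace ℝ X] in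
lemma bounded_sums_comp (v : ℕ → X) (R : ℝ) (hR : ∀ F : Finset ℕ, ‖∑ n ∈ F, v n‖ ≤ R)
    (σ : ℕ → ℕ) (hσ : StrictMono σ) (F : Finset ℕ) : ‖∑ n ∈ F, v (σ n)‖ ≤ R := by
  have := hR (F.map ⟨σ, hσ.injective⟩)
  rwa [Finset.sum_map] at this

/-- weak-star sequential compactness in pointwise form -/
lemma exists_pointwise_limit [TopologicalSpace.SeparableSpace X] (φ : ℕ → X →L[ℝ] ℝ)
    (hφ : ∀ n, ‖φ n‖ ≤ 1) : ∃ ρ : ℕ → ℕ, StrictMono ρ ∧ ∃ ψ : X →L[ℝ] ℝ, ‖ψ‖ ≤ 1 ∧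
      ∀ v, Tendsto (fun n => φ (ρ n) v) atTop (𝓝 (ψ v)) := by
  have hc := WeakDual.isSeqCompact_closedBall ℝ X (0 : StrongDual ℝ X) 1
  obtain ⟨a, ha, ρ, hρ, hlim⟩ := hc (x := fun n => StrongDual.toWeakDual (φ n)) (fun n => by
    simp only [Set.mem_preimage, Metric.mem_closedBall, dist_zero_right]
    exact hφ n)
  refine ⟨ρ, hρ, WeakDual.toStrongDual a, ?_, fun v => ?_⟩
  · simpa using ha
  · have := (WeakBilin.tendsto_iff_forall_eval_tendsto _ ContinuousLinearMap.coe_injective).mp hlim v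
    exact this

theorem cZero_case [CompleteSpace X] [TopologicalSpace.SeparableSpace X] (v : ℕ → X) (ε R : ℝ)
    (hε : 0 < ε) (hv : ∀ n, ε ≤ ‖v n‖) (hR : ∀ F : Finset ℕ, ‖∑ n ∈ F, v n‖ ≤ R) :
    Nonempty ((X × ℝ) ≃L[ℝ] X) := by
  have hR0 : 0 ≤ R := (norm_nonneg _).trans (hR ∅)
  choose φ hφ1 hφ2 using fun n => exists_dual_vector'' ℝ (v n)
  obtain ⟨ρ, hρ, ψ, hψ1, hψ⟩ := exists_pointwise_limit φ hφ1
  -- the functionals `φ (ρ n) - ψ` are weak-star null and large on `v (ρ n)`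
  have hψv : Tendsto (fun n => ψ (v (ρ n))) atTop (𝓝 0) :=
    (tendsto_of_bounded_sums v R hR ψ).comp hρ.tendsto_atTop
  obtain ⟨N, hN⟩ := (Metric.tendsto_atTop.mp hψv) (ε / 2) (by positivity)
  set κ : ℕ → ℕ := fun n => ρ (n + N) with hκ
  have hκm : StrictMono κ := fun a b hab => hρ (Nat.add_lt_add_right hab N)
  set g : ℕ → X →L[ℝ] ℝ := fun n => φ (κ n) - ψ with hg
  have hgv : ∀ n, ε / 2 ≤ g n (v (κ n)) := by
    intro n
    have h1 : (φ (κ n)) (v (κ n)) = ‖v (κ n)‖ := by rw [hφ2]; rfl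
    have h2 := hN (n + N) (by omega)
    rw [Real.dist_0_eq_abs] at h2
    have h3 := (abs_lt.mp h2).2
    have h4 := hv (κ n)
    simp only [hg, sub_apply]
    rw [h1]
    have h5 : ψ (v (κ n)) < ε / 2 := h3
    linarith
  have hg0 : ∀ w, Tendsto (fun n => g n w) atTop (𝓝 0) := by
    intro w
    have h1 := (hψ w).comp (tendsto_add_atTop_nat N)
    have h2 := h1.sub_const (ψ w)
    rw [sub_self] at h2
    exact h2
  have hgn : ∀ n, ‖g n‖ ≤ 2 := fun n => by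
    refine (norm_sub_le _ _).trans ?_
    have := hφ1 (κ n)
    linarith
  have hgpos : ∀ n, 0 < g n (v (κ n)) := fun n => lt_of_lt_of_le (by positivity) (hgv n)
  set f : ℕ → X →L[ℝ] ℝ := fun n => (g n (v (κ n)))⁻¹ • g n with hf
  have hfapp : ∀ n w, f n w = (g n (v (κ n)))⁻¹ * g n w := fun n w => by simp [hf]
  have hinv : ∀ n, |(g n (v (κ n)))⁻¹| ≤ 2 / ε := by
    intro n
    rw [abs_of_pos (inv_pos.mpr (hgpos n))]
    rw [inv_le_comm₀ (hgpos n) (by positivity), inv_div]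
    exact hgv n
  have hfn : ∀ n, ‖f n‖ ≤ 4 / ε := by
    intro n
    simp only [hf]
    rw [norm_smul, Real.norm_eq_abs]
    calc _ ≤ (2 / ε) * 2 := mul_le_mul (hinv n) (hgn n) (norm_nonneg _) (by positivity)
      _ = 4 / ε := by ring
  have hf0 : ∀ w, Tendsto (fun n => f n w) atTop (𝓝 0) := by
    intro w
    have h1 : Tendsto (fun n => (2 / ε) * |g n w|) atTop (𝓝 0) := by
      have := ((hg0 w).abs).const_mul (2 / ε)
      simpa using this
    refine squeeze_zero_norm (fun n => ?_) h1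
    rw [hfapp, norm_mul, Real.norm_eq_abs, Real.norm_eq_abs]
    exact mul_le_mul_of_nonneg_right (hinv n) (abs_nonneg _)
  have hvR : ∀ n, ‖v n‖ ≤ R := fun n => by simpa using hR {n}
  have hfw : ∀ n w, |f n w| ≤ (4 / ε) * ‖w‖ := fun n w =>
    ((f n).le_opNorm w).trans (mul_le_mul_of_nonneg_right (hfn n) (norm_nonneg _))
  have key : ∀ τ σ : ℕ → ℕ, StrictMono τ → StrictMono σ → ∀ w (F : Finset ℕ) (A : ℝ), 0 ≤ A →
      (∀ n ∈ F, |f (τ n) w| ≤ A) → ‖∑ n ∈ F, f (τ n) w • v (κ (σ n))‖ ≤ 2 * R * A := by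
    intro τ σ _ hσ w F A hA0 hA
    exact norm_sum_smul_le (fun n => v (κ (σ n))) R
      (bounded_sums_comp v R hR (fun n => κ (σ n)) (hκm.comp hσ)) (fun n => f (τ n) w) A hA0 F hA
  have hsum : ∀ τ σ : ℕ → ℕ, StrictMono τ → StrictMono σ → ∀ w,
      Summable fun n => f (τ n) w • v (κ (σ n)) := by
    intro τ σ hτ hσ w
    rw [summable_iff_vanishing_norm]
    intro δ hδ
    have hlim : Tendsto (fun n => f (τ n) w) atTop (𝓝 0) := (hf0 w).comp hτ.tendsto_atTop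
    set A : ℝ := δ / (2 * (2 * R + 1)) with hA
    have hA0 : 0 < A := by positivity
    obtain ⟨M, hM⟩ := (Metric.tendsto_atTop.mp hlim) A hA0
    refine ⟨Finset.range M, fun t ht => ?_⟩
    have h1 := key τ σ hτ hσ w t A hA0.le (fun n hn => by
      have : M ≤ n := by
        by_contra hlt
        exact (Finset.disjoint_left.mp ht hn) (Finset.mem_range.mpr (not_le.mp hlt))
      have := hM n this
      rw [Real.dist_0_eq_abs] at this
      exact this.le)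
    refine lt_of_le_of_lt h1 ?_
    have h2 : 2 * R * A < (2 * R + 1) * (2 * A) := by nlinarith
    have h3 : (2 * R + 1) * (2 * A) = δ := by rw [hA]; field_simp
    linarith
  refine system_theorem (fun n => v (κ n)) f (max R (4 / ε)) (2 * R * (4 / ε))
    (fun n => (hvR _).trans (le_max_left _ _)) (fun n => (hfn n).trans (le_max_right _ _))
    (fun n => ?_) (fun n => ?_) (fun m => hf0 _) hsum (fun τ σ hτ hσ w => ?_)
  · rw [hfapp, inv_mul_cancel₀ (hgpos n).ne']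
  · exact (tendsto_of_bounded_sums v R hR (f n)).comp hκm.tendsto_atTop
  · refine le_of_tendsto ((hsum τ σ hτ hσ w).hasSum.norm) (Eventually.of_forall fun F => ?_)
    have := key τ σ hτ hσ w F ((4 / ε) * ‖w‖) (by positivity) (fun n _ => hfw _ _)
    linarith

end Pool.Agent.Lib.MP_f761d9_an
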