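import Pool.Agent.Lib.MP_f761d9_an.Upper

/-!
# Decoupling, and the case of a complemented copy of `ℓ_j`
-/

set_option autoImplicit false

namespace Pool.Agent.Lib.MP_f761d9_an

open Filter Topology Set
open scoped ContDiff

variable {X : Type*} [NormedAddCommGroup X] [NormedSpace ℝ X]

/-- greedy signs for a matrix -/
lemma exists_signs (F : Finset ℕ) (a : ℕ → ℕ → ℝ) :
    ∃ ε : ℕ → ℝ, (∀ n, ε n = 1 ∨ ε n = -1) ∧
      ∑ n ∈ F, a n n ≤ ∑ l ∈ F, ∑ n ∈ F, ε l * ε n * a l n := by
  classical
  induction F using Finset.induction_on with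
  | empty => exact ⟨fun _ => 1, fun _ => Or.inl rfl, by simp⟩
  | insert k F hk ih =>
    obtain ⟨ε, hε, h⟩ := ih
    set c : ℝ := ∑ n ∈ F, ε n * (a k n + a n k) with hc
    set s : ℝ := if 0 ≤ c then 1 else -1 with hs
    have hs1 : s = 1 ∨ s = -1 := by rw [hs]; split_ifs <;> simp
    have hss : s * s = 1 := by rcases hs1 with h | h <;> rw [h] <;> norm_num
    have hsc : 0 ≤ s * c := by
      rw [hs]; split_ifs with h0
      · simpa using h0
      · push Not at h0; nlinarith
    set ε' : ℕ → ℝ := fun n => if n = k then s else ε n with hε'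
    have e1 : ∀ n ∈ F, ε' n = ε n := fun n hn => by
      simp only [hε']; rw [if_neg]; rintro rfl; exact hk hn
    have e2 : ε' k = s := by simp [hε']
    refine ⟨ε', fun n => ?_, ?_⟩
    · simp only [hε']; split_ifs
      · exact hs1
      · exact hε n
    · rw [Finset.sum_insert hk, Finset.sum_insert hk, Finset.sum_insert hk, e2, hss, one_mul]
      have h1 : ∑ n ∈ F, s * ε' n * a k n = s * ∑ n ∈ F, ε n * a k n := by
        rw [Finset.mul_sum]
        exact Finset.sum_congr rfl fun n hn => by rw [e1 n hn]; ring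
      have h2 : ∑ l ∈ F, ∑ n ∈ insert k F, ε' l * ε' n * a l n
          = s * ∑ l ∈ F, ε l * a l k + ∑ l ∈ F, ∑ n ∈ F, ε l * ε n * a l n := by
        rw [Finset.mul_sum, ← Finset.sum_add_distrib]
        refine Finset.sum_congr rfl fun l hl => ?_
        rw [Finset.sum_insert hk, e2, e1 l hl]
        congr 1
        · ring
        · exact Finset.sum_congr rfl fun n hn => by rw [e1 n hn]
      have h3 : s * c = s * ∑ n ∈ F, ε n * a k n + s * ∑ l ∈ F, ε l * a l k := by
        rw [hc, ← mul_add, ← Finset.sum_add_distrib]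
        congr 1
        exact Finset.sum_congr rfl fun n _ => by ring
      rw [h1, h2]
      linarith

/-- absolute value version -/
lemma exists_signs_abs (F : Finset ℕ) (a : ℕ → ℕ → ℝ) :
    ∃ ε : ℕ → ℝ, (∀ n, ε n = 1 ∨ ε n = -1) ∧
      |∑ n ∈ F, a n n| ≤ |∑ l ∈ F, ∑ n ∈ F, ε l * ε n * a l n| := by
  rcases le_total 0 (∑ n ∈ F, a n n) with h | h
  · obtain ⟨ε, h1, h2⟩ := exists_signs F a
    refine ⟨ε, h1, ?_⟩
    rw [abs_of_nonneg h]
    exact h2.trans (le_abs_self _)
  · obtain ⟨ε, h1, h2⟩ := exists_signs F (fun l n => -a l n)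
    refine ⟨ε, h1, ?_⟩
    rw [abs_of_nonpos h, ← Finset.sum_neg_distrib]
    refine h2.trans ?_
    rw [← abs_neg]
    refine le_trans (le_of_eq ?_) (le_abs_self _)
    rw [← Finset.sum_neg_distrib]
    refine Finset.sum_congr rfl fun l _ => ?_
    rw [← Finset.sum_neg_distrib]
    exact Finset.sum_congr rfl fun n _ => by ring

/-- **Decoupling.**  The diagonal part of a bounded multilinear form. -/
theorem diag_bound (r : ℕ) (B : ContinuousMultilinearMap ℝ (fun _ : Fin (r + 1) => X) ℝ)
    (F : Finset ℕ) (z : Fin (r + 1) → ℕ → X) (s : ℝ)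
    (hs : ∀ i, ∀ ε : ℕ → ℝ, (∀ n, ε n = 1 ∨ ε n = -1) → ‖∑ n ∈ F, ε n • z i n‖ ≤ s) :
    |∑ n ∈ F, B (fun i => z i n)| ≤ ‖B‖ * s ^ (r + 1) := by
  have hs0 : 0 ≤ s := (norm_nonneg _).trans (hs 0 (fun _ => 1) (fun _ => Or.inl rfl))
  induction r with
  | zero =>
    have h1 : ∑ n ∈ F, B (fun i => z i n) = B (fun _ => ∑ n ∈ F, z 0 n) := by
      have h2 : ∀ v : X, (fun _ : Fin (0 + 1) => v) = Fin.cons v (fun i : Fin 0 => i.elim0) := by
        intro v
        funext i
        fin_cases i
        rfl
      have h3 : ∀ n, (fun i : Fin (0 + 1) => z i n) = fun _ => z 0 n := by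
        intro n; funext i; fin_cases i; rfl
      have h4 : ∀ v : X, B (fun _ => v) = B.curryLeft v (fun i : Fin 0 => i.elim0) := by
        intro v
        rw [ContinuousMultilinearMap.curryLeft_apply, h2]
      simp_rw [h3, h4]
      rw [map_sum, sum_apply]
    rw [h1]
    have h5 := B.le_opNorm (fun _ => ∑ n ∈ F, z 0 n)
    rw [Real.norm_eq_abs, Finset.prod_const, Finset.card_univ, Fintype.card_fin] at h5
    refine h5.trans ?_
    have h6 := hs 0 (fun _ => 1) (fun _ => Or.inl rfl)
    simp only [one_smul] at h6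
    exact mul_le_mul_of_nonneg_left (pow_le_pow_left₀ (norm_nonneg _) h6 _) (norm_nonneg _)
  | succ r ih =>
    -- freeze the first variable
    set a : ℕ → ℕ → ℝ := fun l n => B (Fin.cons (z 0 l) (fun i : Fin (r + 1) => z i.succ n)) with ha
    have h1 : ∀ n, B (fun i => z i n) = a n n := by
      intro n
      simp only [ha]
      congr 1
      funext i
      refine Fin.cases ?_ (fun i => ?_) i <;> simp
    simp_rw [h1]
    obtain ⟨ε, hε, h2⟩ := exists_signs_abs F a
    refine h2.trans ?_
    set w : X := ∑ l ∈ F, ε l • z 0 l with hw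
    set B' : ContinuousMultilinearMap ℝ (fun _ : Fin (r + 1) => X) ℝ := B.curryLeft w with hB'
    set z' : Fin (r + 1) → ℕ → X := fun i n => if i = 0 then ε n • z i.succ n else z i.succ n
      with hz'
    have h3 : ∑ l ∈ F, ∑ n ∈ F, ε l * ε n * a l n = ∑ n ∈ F, B' (fun i => z' i n) := by
      rw [Finset.sum_comm]
      refine Finset.sum_congr rfl fun n _ => ?_
      have h4 : B' (fun i => z' i n) = ε n * B' (fun i => z i.succ n) := by
        have h5 : (fun i : Fin (r + 1) => z' i n)
            = Function.update (fun i : Fin (r + 1) => z i.succ n) 0 (ε n • z (Fin.succ 0) n) := by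
          funext i
          by_cases hi : i = 0
          · subst hi; simp [hz']
          · simp [hz', hi]
        rw [h5, B'.map_update_smul, Function.update_eq_self]
        rfl
      have h6 : B' (fun i => z i.succ n) = ∑ l ∈ F, ε l * a l n := by
        rw [hB', hw, map_sum, sum_apply]
        refine Finset.sum_congr rfl fun l _ => ?_
        rw [map_smul]
        rfl
      rw [h4, h6, Finset.mul_sum]
      exact Finset.sum_congr rfl fun l _ => by ring
    rw [h3]
    have h7 := ih B' z' (fun i ε' hε' => by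
      by_cases hi : i = 0
      · subst hi
        have h8 := hs (Fin.succ 0) (fun n => ε' n * ε n) (fun n => by
          rcases hε n with h | h <;> rcases hε' n with h' | h' <;> rw [h, h'] <;> norm_num)
        refine le_trans (le_of_eq ?_) h8
        congr 1
        refine Finset.sum_congr rfl fun n _ => ?_
        simp only [hz', if_true]
        rw [mul_smul]
      · have h8 := hs i.succ ε' hε'
        refine le_trans (le_of_eq ?_) h8
        congr 1
        refine Finset.sum_congr rfl fun n _ => ?_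
        simp only [hz', if_neg hi])
    refine h7.trans ?_
    have h9 : ‖B'‖ ≤ ‖B‖ * s := by
      calc ‖B'‖ ≤ ‖B.curryLeft‖ * ‖w‖ := B.curryLeft.le_opNorm w
        _ = ‖B‖ * ‖w‖ := by rw [ContinuousMultilinearMap.curryLeft_norm]
        _ ≤ ‖B‖ * s := mul_le_mul_of_nonneg_left (hs 0 ε hε) (norm_nonneg _)
    calc ‖B'‖ * s ^ (r + 1) ≤ (‖B‖ * s) * s ^ (r + 1) :=
          mul_le_mul_of_nonneg_right h9 (by positivity)
      _ = ‖B‖ * s ^ (r + 1 + 1) := by ring

end Pool.Agent.Lib.MP_f761d9_an
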