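import Pool.Agent.Lib.MP_f761d9_an.Taylor

/-!
# Greedy signs: a smooth bump forbids large `ℓ_1`-sums
-/

set_option autoImplicit false

namespace Pool.Agent.Lib.MP_f761d9_an

open Filter Topology Set
open scoped ContDiff

variable {X : Type*} [NormedAddCommGroup X] [NormedSpace ℝ X]

/-- abstract greedy choice of signs -/
lemma greedy_signs (G : X → ℝ) (hG0 : G 0 = 0) (η δ c : ℝ) (hc : 0 ≤ c)
    (h1 : ∀ h, η ≤ ‖h‖ → δ < G h)
    (h2 : ∀ s h, ‖s‖ ≤ η → ‖h‖ ≤ η → G (s + h) + G (s - h) ≤ 2 * G s + 2 * c * ‖h‖ ^ 2)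
    (h : ℕ → X) (τ : ℝ) (hτ : ∀ i, ‖h i‖ ≤ τ) (hτη : τ ≤ η) (m : ℕ)
    (hm : m * (c * τ ^ 2) ≤ δ) :
    ∃ ε : ℕ → ℝ, (∀ i, ε i = 1 ∨ ε i = -1) ∧
      G (∑ i ∈ Finset.range m, ε i • h i) ≤ m * (c * τ ^ 2) := by
  induction m with
  | zero => exact ⟨fun _ => 1, fun _ => Or.inl rfl, by simp [hG0]⟩
  | succ m ih =>
    have hcτ : 0 ≤ c * τ ^ 2 := by positivity
    push_cast at hm
    obtain ⟨ε, hε, hS⟩ := ih (by linarith)
    set s := ∑ i ∈ Finset.range m, ε i • h i with hs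
    have hsη : ‖s‖ ≤ η := by
      by_contra hcon
      have := h1 s (le_of_lt (not_le.mp hcon))
      linarith
    have h3 := h2 s (h m) hsη ((hτ m).trans hτη)
    have h4 : c * ‖h m‖ ^ 2 ≤ c * τ ^ 2 :=
      mul_le_mul_of_nonneg_left (pow_le_pow_left₀ (norm_nonneg _) (hτ m) 2) hc
    have h5 : ∃ t : ℝ, (t = 1 ∨ t = -1) ∧ G (s + t • h m) ≤ G s + c * τ ^ 2 := by
      by_cases h6 : G (s + h m) ≤ G s + c * τ ^ 2
      · exact ⟨1, Or.inl rfl, by simpa using h6⟩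
      · refine ⟨-1, Or.inr rfl, ?_⟩
        rw [neg_one_smul, ← sub_eq_add_neg]
        push Not at h6
        linarith
    obtain ⟨t, ht, htG⟩ := h5
    refine ⟨fun i => if i = m then t else ε i, fun i => ?_, ?_⟩
    · dsimp only
      split_ifs
      · exact ht
      · exact hε i
    · rw [Finset.sum_range_succ]
      have h7 : ∑ i ∈ Finset.range m, (if i = m then t else ε i) • h i = s := by
        refine Finset.sum_congr rfl fun i hi => ?_
        rw [if_neg (Finset.mem_range.mp hi).ne]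
      rw [h7]
      dsimp only
      rw [if_pos rfl]
      push_cast
      linarith

/-- For each `κ > 0` there is `m` such that for all `m` vectors of norm at most `2` some choice of
signs gives a sum of norm less than `κ * m`. -/
theorem exists_small_signs (b : X → ℝ) (hb : ContDiff ℝ ∞ b) (K : Set X) (hK : IsCompact K)
    (hsep : ∀ η > 0, ∃ δ > 0, ∃ S : Finset X, (↑S : Set X) ⊆ K ∧
      ∀ h : X, η ≤ ‖h‖ → ∃ k ∈ S, δ < |b (k + h) - b k|) (κ : ℝ) (hκ : 0 < κ) :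
    ∃ m : ℕ, 1 ≤ m ∧ ∀ y : ℕ → X, (∀ i, ‖y i‖ ≤ 2) →
      ∃ ε : ℕ → ℝ, (∀ i, ε i = 1 ∨ ε i = -1) ∧ ‖∑ i ∈ Finset.range m, ε i • y i‖ < κ * m := by
  have hb2 : ContDiff ℝ ∞ (fun x => b x ^ 2) := hb.pow 2
  obtain ⟨η₁, hη₁, M₁, hM₁0, hM₁⟩ := exists_bound_near b hb K hK 2
  obtain ⟨η₂, hη₂, M₂, hM₂0, hM₂⟩ := exists_bound_near (fun x => b x ^ 2) hb2 K hK 2
  set η : ℝ := min η₁ η₂ / 2 with hη
  have hηpos : 0 < η := by positivity
  have hηη₁ : η + η ≤ η₁ := by rw [hη]; linarith [min_le_left η₁ η₂]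
  have hηη₂ : η + η ≤ η₂ := by rw [hη]; linarith [min_le_right η₁ η₂]
  obtain ⟨δ, hδ, S, hSK, hS⟩ := hsep η hηpos
  set G : X → ℝ := fun h => ∑ k ∈ S, (b (k + h) - b k) ^ 2 with hG
  have hG0 : G 0 = 0 := by simp [hG]
  have g1 : ∀ h, η ≤ ‖h‖ → δ ^ 2 < G h := by
    intro h hh
    obtain ⟨k, hk, hlt⟩ := hS h hh
    have e1 : δ ^ 2 < (b (k + h) - b k) ^ 2 := by
      rw [← sq_abs (b (k + h) - b k)]
      exact pow_lt_pow_left₀ hlt hδ.le (by norm_num)
    refine lt_of_lt_of_le e1 ?_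
    exact Finset.single_le_sum (f := fun k => (b (k + h) - b k) ^ 2) (fun _ _ => sq_nonneg _) hk
  set c₁ : ℝ := ∑ k ∈ S, (M₂ + 2 * |b k| * M₁) with hc₁
  have hc₁0 : 0 ≤ c₁ := Finset.sum_nonneg fun _ _ => by positivity
  have g2 : ∀ s h, ‖s‖ ≤ η → ‖h‖ ≤ η → G (s + h) + G (s - h) ≤ 2 * G s + 2 * c₁ * ‖h‖ ^ 2 := by
    intro s h hs hh
    simp only [hG, hc₁]
    rw [Finset.mul_sum, Finset.mul_sum, Finset.sum_mul, ← Finset.sum_add_distrib,
      ← Finset.sum_add_distrib]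
    refine Finset.sum_le_sum fun k hk => ?_
    have hnear : ∀ t ∈ Icc (-1 : ℝ) 1, ‖s + t • h‖ ≤ η + η := by
      intro t ht
      refine (norm_add_le _ _).trans (add_le_add hs ?_)
      rw [norm_smul, Real.norm_eq_abs]
      have h3 : |t| ≤ 1 := abs_le.mpr ht
      calc |t| * ‖h‖ ≤ 1 * η := mul_le_mul h3 hh (norm_nonneg _) (by norm_num)
        _ = η := one_mul _
    have e1 := second_difference b hb (k + s) h M₁ (fun t ht => by
      rw [add_assoc]
      exact hM₁ k (hSK hk) _ ((hnear t ht).trans hηη₁))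
    have e2 := second_difference (fun x => b x ^ 2) hb2 (k + s) h M₂ (fun t ht => by
      rw [add_assoc]
      exact hM₂ k (hSK hk) _ ((hnear t ht).trans hηη₂))
    rw [← add_assoc, ← add_sub_assoc]
    have e3 := (abs_le.mp e2).2
    have e4 : |b k * (b (k + s + h) + b (k + s - h) - 2 * b (k + s))| ≤
        |b k| * (2 * M₁ * ‖h‖ ^ 2) := by
      rw [abs_mul]
      exact mul_le_mul_of_nonneg_left e1 (abs_nonneg _)
    have e5 := (abs_le.mp e4).1
    nlinarith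
  -- choice of m
  set c : ℝ := c₁ + 1 with hc
  have hc0 : 0 < c := by positivity
  obtain ⟨m₁, hm₁⟩ := exists_nat_ge (2 / κ)
  obtain ⟨m₂, hm₂⟩ := exists_nat_ge (4 * c * η ^ 2 / (κ ^ 2 * δ ^ 2))
  set m : ℕ := max 1 (max m₁ m₂) with hm
  have hm1 : 1 ≤ m := le_max_left _ _
  have hmpos : (0 : ℝ) < m := by exact_mod_cast hm1
  have hmm₁ : 2 / κ ≤ m := hm₁.trans (by
    exact_mod_cast (le_max_left m₁ m₂).trans (le_max_right 1 _))
  have hmm₂ : 4 * c * η ^ 2 / (κ ^ 2 * δ ^ 2) ≤ m := hm₂.trans (by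
    exact_mod_cast (le_max_right m₁ m₂).trans (le_max_right 1 _))
  set τ : ℝ := 2 * η / (κ * m) with hτ
  have hτpos : 0 < τ := by positivity
  have hτη : τ ≤ η := by
    rw [hτ, div_le_iff₀ (by positivity)]
    rw [div_le_iff₀ hκ] at hmm₁
    nlinarith
  have hcond : m * (c * τ ^ 2) ≤ δ ^ 2 := by
    have e1 : m * (c * τ ^ 2) = 4 * c * η ^ 2 / (κ ^ 2 * m) := by
      rw [hτ]; field_simp; ring
    rw [e1, div_le_iff₀ (by positivity)]
    rw [div_le_iff₀ (by positivity)] at hmm₂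
    linarith
  refine ⟨m, hm1, fun y hy => ?_⟩
  have hy' : ∀ i, ‖(τ / 2) • y i‖ ≤ τ := by
    intro i
    rw [norm_smul, Real.norm_of_nonneg (by positivity)]
    have := hy i
    nlinarith
  obtain ⟨ε, hε, hGε⟩ := greedy_signs G hG0 η (δ ^ 2) c hc0.le g1 (fun s h hs hh => by
    have := g2 s h hs hh
    have h6 : 0 ≤ ‖h‖ ^ 2 := by positivity
    rw [hc]
    linarith) (fun i => (τ / 2) • y i) τ hy' hτη m hcond
  refine ⟨ε, hε, ?_⟩
  have h7 : ‖∑ i ∈ Finset.range m, ε i • (τ / 2) • y i‖ < η := by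
    by_contra hcon
    have := g1 _ (not_lt.mp hcon)
    linarith
  have h8 : ∑ i ∈ Finset.range m, ε i • (τ / 2) • y i
      = (τ / 2) • ∑ i ∈ Finset.range m, ε i • y i := by
    rw [Finset.smul_sum]
    exact Finset.sum_congr rfl fun i _ => smul_comm _ _ _
  rw [h8, norm_smul, Real.norm_of_nonneg (by positivity)] at h7
  have h9 : τ / 2 * (κ * m) = η := by rw [hτ]; field_simp
  rw [← h9] at h7
  exact lt_of_mul_lt_mul_left h7 (by positivity)

end Pool.Agent.Lib.MP_f761d9_an
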