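import Pool.Agent.Lib.MP_f761d9_an.Upper
import Pool.Agent.Lib.MP_f761d9_an.Signs

/-!
# Upper estimates of all orders produce large `ℓ_1`-sums
-/

set_option autoImplicit false

namespace Pool.Agent.Lib.MP_f761d9_an

open Filter Topology Set

variable {X : Type*} [NormedAddCommGroup X] [NormedSpace ℝ X]

/-- sums of signs are integers -/
lemma sum_signs_int (s : ℕ → ℝ) (hs : ∀ p, s p = 1 ∨ s p = -1) (m : ℕ) :
    ∃ z : ℤ, |z| ≤ m ∧ (z : ℝ) = ∑ p ∈ Finset.range m, s p := by
  induction m with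
  | zero => exact ⟨0, by simp, by simp⟩
  | succ m ih =>
    obtain ⟨z, hz1, hz2⟩ := ih
    rw [abs_le] at hz1
    rcases hs m with h | h
    · refine ⟨z + 1, ?_, ?_⟩
      · rw [abs_le]; push_cast; constructor <;> linarith [hz1.1, hz1.2]
      · rw [Finset.sum_range_succ, ← hz2, h]; push_cast; ring
    · refine ⟨z - 1, ?_, ?_⟩
      · rw [abs_le]; push_cast; constructor <;> linarith [hz1.1, hz1.2]
      · rw [Finset.sum_range_succ, ← hz2, h]; push_cast; ring

/-- the set of combinations of `w 0, …, w (N - 1)` with integer coefficients of absolute value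
at most `m` -/
def combos (w : ℕ → X) (m N : ℕ) : Set X :=
  {v | ∃ a : ℕ → ℤ, (∀ i, |a i| ≤ m) ∧ v = ∑ i ∈ Finset.range N, (a i : ℝ) • w i}

lemma combos_finite (w : ℕ → X) (m N : ℕ) : (combos w m N).Finite := by
  induction N with
  | zero =>
    refine (Set.finite_singleton (0 : X)).subset ?_
    rintro v ⟨a, _, rfl⟩
    simp
  | succ N ih =>
    have hf : (Set.Icc (-(m : ℤ)) m).Finite := Set.finite_Icc _ _
    refine ((ih.prod hf).image (fun q => q.1 + (q.2 : ℝ) • w N)).subset ?_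
    rintro v ⟨a, ha, rfl⟩
    refine ⟨(∑ i ∈ Finset.range N, (a i : ℝ) • w i, a N), ⟨⟨a, ha, rfl⟩, ?_⟩, ?_⟩
    · exact abs_le.mp (ha N)
    · rw [Finset.sum_range_succ]

/-- all subsets of `range m` are enumerated by the numbers below `2 ^ m` -/
lemma exists_enum (m : ℕ) : ∃ T : ℕ → Finset ℕ, ∀ A ⊆ Finset.range m, ∃ i < 2 ^ m, T i = A := by
  classical
  have hcard : (Finset.range m).powerset.card = 2 ^ m := by
    rw [Finset.card_powerset, Finset.card_range]
  let e := (Finset.range m).powerset.equivFin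
  refine ⟨fun i => if h : i < (Finset.range m).powerset.card then (e.symm ⟨i, h⟩).1 else ∅, ?_⟩
  intro A hA
  have hA' : A ∈ (Finset.range m).powerset := Finset.mem_powerset.mpr hA
  refine ⟨(e ⟨A, hA'⟩).1, ?_, ?_⟩
  · rw [← hcard]; exact (e ⟨A, hA'⟩).2
  · dsimp only
    rw [dif_pos (e ⟨A, hA'⟩).2]
    simp

/-- the block property -/
def BlockProp (x : ℕ → X) (N r : ℕ) (c : ℝ) : Prop :=
  ∀ k : ℕ, ∃ F : Finset ℕ, (∀ i ∈ F, k ≤ i) ∧ F.card ≤ N ^ r ∧
    ∃ θ : ℕ → ℝ, (∀ i, θ i = 1 ∨ θ i = -1) ∧ c ≤ ‖∑ i ∈ F, θ i • x i‖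

lemma exists_stable_scale (m : ℕ) (C : ℝ) (x : ℕ → X) (hx1 : ∀ n, 1 ≤ ‖x n‖)
    (hup : UpperEst (m + 1) C x) :
    ∃ (r : ℕ) (c : ℝ), 0 < c ∧ BlockProp x (2 ^ m) r c ∧ ¬ BlockProp x (2 ^ m) (r + 1) (2 * c) := by
  by_contra hcon
  push Not at hcon
  have h0 : BlockProp x (2 ^ m) 0 1 := by
    intro k
    refine ⟨{k}, by simp, by simp, fun _ => 1, fun _ => Or.inl rfl, ?_⟩
    simpa using hx1 k
  have hall : ∀ r : ℕ, BlockProp x (2 ^ m) r (2 ^ r) := by
    intro r
    induction r with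
    | zero => simpa using h0
    | succ r ih =>
      have := hcon r (2 ^ r) (by positivity) ih
      rwa [← pow_succ'] at this
  have hC0 : 0 ≤ C := by
    have h1 := hup {0} (fun _ => 1)
    simp only [Finset.sum_singleton, abs_one, one_pow, mul_one, one_smul] at h1
    exact le_trans (by positivity) h1
  have hbound : ∀ r : ℕ, (2 : ℝ) ^ r ≤ C := by
    intro r
    obtain ⟨F, _, hF, θ, hθ, hle⟩ := hall r 0
    have h1 := hup F θ
    have h2 : ∑ n ∈ F, |θ n| ^ (m + 1) = F.card := by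
      have : ∀ n ∈ F, |θ n| ^ (m + 1) = 1 := fun n _ => by
        rcases hθ n with h | h <;> rw [h] <;> simp
      rw [Finset.sum_congr rfl this]
      simp
    rw [h2] at h1
    have h3 : ((2 : ℝ) ^ r) ^ (m + 1) ≤ C * ((2 ^ m) ^ r : ℕ) := by
      calc ((2 : ℝ) ^ r) ^ (m + 1) ≤ ‖∑ i ∈ F, θ i • x i‖ ^ (m + 1) :=
            pow_le_pow_left₀ (by positivity) hle _
        _ ≤ C * F.card := h1
        _ ≤ C * ((2 ^ m) ^ r : ℕ) := by
            refine mul_le_mul_of_nonneg_left ?_ hC0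
            exact_mod_cast hF
    have h4 : ((2 : ℝ) ^ r) ^ (m + 1) = 2 ^ r * ((2 : ℝ) ^ m) ^ r := by
      rw [← pow_mul, ← pow_mul, ← pow_add]
      congr 1
      ring
    rw [h4] at h3
    push_cast at h3
    exact le_of_mul_le_mul_right h3 (by positivity)
  obtain ⟨r, hr⟩ := pow_unbounded_of_one_lt C (by norm_num : (1 : ℝ) < 2)
  exact absurd (hbound r) (not_le.mpr hr)

/-- sums over disjoint blocks -/
lemma sum_blocks (x : ℕ → X) (A : Finset ℕ) (E : ℕ → Finset ℕ)
    (hE : ∀ l l', l < l' → ∀ q ∈ E l, ∀ q' ∈ E l', q < q') (θ : ℕ → ℕ → ℝ) (s : ℕ → ℝ)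
    (hθ : ∀ l i, θ l i = 1 ∨ θ l i = -1) (hs : ∀ l, s l = 1 ∨ s l = -1) :
    ∃ (F : Finset ℕ) (Θ : ℕ → ℝ), F = A.biUnion E ∧ (∀ i, Θ i = 1 ∨ Θ i = -1) ∧
      ∑ i ∈ F, Θ i • x i = ∑ l ∈ A, s l • ∑ i ∈ E l, θ l i • x i := by
  classical
  have huniq : ∀ l l' i, i ∈ E l → i ∈ E l' → l = l' := by
    intro l l' i h h'
    rcases lt_trichotomy l l' with hlt | heq | hgt
    · exact absurd (hE l l' hlt i h i h') (lt_irrefl _)
    · exact heq
    · exact absurd (hE l' l hgt i h' i h) (lt_irrefl _)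
  let Θ : ℕ → ℝ := fun i => if h : ∃ l, i ∈ E l then s h.choose * θ h.choose i else 1
  refine ⟨A.biUnion E, Θ, rfl, fun i => ?_, ?_⟩
  · simp only [Θ]
    split_ifs with h
    · rcases hs h.choose with h1 | h1 <;> rcases hθ h.choose i with h2 | h2 <;> rw [h1, h2] <;>
        norm_num
    · exact Or.inl rfl
  · rw [Finset.sum_biUnion]
    · refine Finset.sum_congr rfl fun l _ => ?_
      rw [Finset.smul_sum]
      refine Finset.sum_congr rfl fun i hi => ?_
      have h : ∃ l, i ∈ E l := ⟨l, hi⟩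
      have hl : h.choose = l := huniq _ _ i h.choose_spec hi
      simp only [Θ]
      rw [dif_pos h, hl, mul_smul]
    · intro l _ l' _ hll'
      rw [Function.onFun, Finset.disjoint_left]
      intro i hi hi'
      exact hll' (huniq l l' i hi hi')

/-- The finite-dimensional construction. -/
theorem exists_large_signs (𝓕 : Set (X →L[ℝ] ℝ))
    (hnorming : ∀ v : X, ∃ φ ∈ 𝓕, ‖φ‖ ≤ 1 ∧ ‖v‖ ≤ 2 * φ v) (m : ℕ) (hm : 1 ≤ m) (C : ℝ)
    (x : ℕ → X) (hx : NullSeq 𝓕 x) (hx1 : ∀ n, 1 ≤ ‖x n‖) (hup : UpperEst (m + 1) C x) :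
    ∃ y : ℕ → X, (∀ i, ‖y i‖ ≤ 2) ∧ ∀ ε : ℕ → ℝ, (∀ i, ε i = 1 ∨ ε i = -1) →
      (1 / 8 : ℝ) * m ≤ ‖∑ i ∈ Finset.range m, ε i • y i‖ := by
  classical
  obtain ⟨r, c, hc, hblock, hnot⟩ := exists_stable_scale m C x hx1 hup
  set N : ℕ := 2 ^ m with hN
  have hNpos : 0 < N := by positivity
  have hNposR : (0 : ℝ) < N := by exact_mod_cast hNpos
  have hmposR : (0 : ℝ) < m := by exact_mod_cast hm
  -- the bound from `hnot`
  have hnot' : ∃ k₀ : ℕ, ∀ F : Finset ℕ, (∀ i ∈ F, k₀ ≤ i) → F.card ≤ N ^ (r + 1) →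
      ∀ θ : ℕ → ℝ, (∀ i, θ i = 1 ∨ θ i = -1) → ‖∑ i ∈ F, θ i • x i‖ < 2 * c := by
    unfold BlockProp at hnot
    push Not at hnot
    obtain ⟨k, hk⟩ := hnot
    exact ⟨k, fun F h1 h2 θ h3 => hk F h1 h2 θ h3⟩
  obtain ⟨k₀, hk₀⟩ := hnot'
  -- blocks
  choose E hE1 hE2 θ hθ hE3 using fun k => hblock (max k k₀)
  set w : ℕ → X := fun k => c⁻¹ • ∑ i ∈ E k, θ k i • x i with hw
  have hw1 : ∀ k, 1 ≤ ‖w k‖ := by
    intro k
    simp only [hw]
    rw [norm_smul, Real.norm_of_nonneg (by positivity)]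
    have := hE3 k
    rw [← div_eq_inv_mul, le_div_iff₀ hc, one_mul]
    exact this
  -- null
  have hwnull : ∀ φ ∈ 𝓕, Tendsto (fun k => φ (w k)) atTop (𝓝 0) := by
    intro φ hφ
    have h1 := hx.2 φ hφ
    rw [Metric.tendsto_atTop] at h1 ⊢
    intro ε hε
    set ε' : ℝ := ε * c / (2 * (N : ℝ) ^ r) with hε'
    have hε'0 : 0 < ε' := by positivity
    obtain ⟨n₀, hn₀⟩ := h1 ε' hε'0
    refine ⟨n₀, fun k hk => ?_⟩
    rw [Real.dist_0_eq_abs]
    have h2 : φ (w k) = c⁻¹ * ∑ i ∈ E k, θ k i * φ (x i) := by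
      simp only [hw]
      rw [map_smul, map_sum, smul_eq_mul]
      congr 1
      exact Finset.sum_congr rfl fun i _ => by rw [map_smul, smul_eq_mul]
    have h3 : |∑ i ∈ E k, θ k i * φ (x i)| ≤ (E k).card * ε' := by
      refine (Finset.abs_sum_le_sum_abs _ _).trans ?_
      rw [← nsmul_eq_mul]
      refine Finset.sum_le_card_nsmul _ _ _ fun i hi => ?_
      rw [abs_mul]
      have h4 : |θ k i| = 1 := by rcases hθ k i with h | h <;> rw [h] <;> simp
      rw [h4, one_mul]
      have h5 := hn₀ i (hk.trans ((le_max_left _ _).trans (hE1 k i hi)))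
      rw [Real.dist_0_eq_abs] at h5
      exact h5.le
    have h6 : ((E k).card : ℝ) * ε' ≤ (N : ℝ) ^ r * ε' := by
      refine mul_le_mul_of_nonneg_right ?_ hε'0.le
      exact_mod_cast hE2 k
    have h7 : (N : ℝ) ^ r * ε' = ε * c / 2 := by rw [hε']; field_simp
    rw [h2, abs_mul, abs_of_pos (inv_pos.mpr hc)]
    calc c⁻¹ * |∑ i ∈ E k, θ k i * φ (x i)| ≤ c⁻¹ * (ε * c / 2) := by
          refine mul_le_mul_of_nonneg_left ?_ (by positivity)
          linarith
      _ = ε / 2 := by field_simp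
      _ < ε := by linarith
  -- norming functionals
  choose Φ hΦ1 hΦ2 hΦ3 using hnorming
  set ε₀ : ℝ := 1 / (8 * N) with hε₀
  have hε₀pos : 0 < ε₀ := by positivity
  obtain ⟨σ, hσ, hsel⟩ := exists_select
    (fun N' n => (∀ i < N', ∀ q ∈ E i, q < n) ∧ ∀ v ∈ combos w m N', |Φ v (w n)| ≤ ε₀) (by
      intro N'
      refine Eventually.and ?_ ?_
      · have h1 : ∀ i ∈ Set.Iio N', ∀ᶠ n in atTop, ∀ q ∈ E i, q < n := by
          intro i _
          obtain ⟨b, hb⟩ := (E i).exists_nat_subset_range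
          filter_upwards [eventually_ge_atTop b] with n hn q hq
          have := Finset.mem_range.mp (hb hq)
          omega
        exact ((Set.finite_Iio N').eventually_all (l := atTop)).mpr h1
      · refine ((combos_finite w m N').eventually_all (l := atTop)).mpr ?_
        intro v _
        have h1 := (Metric.tendsto_nhds.mp (hwnull (Φ v) (hΦ1 v))) ε₀ hε₀pos
        filter_upwards [h1] with n hn
        rw [Real.dist_0_eq_abs] at hn
        exact hn.le)
  set v : ℕ → X := fun l => w (σ l) with hv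
  -- disjointness
  have hdisj : ∀ l l', l < l' → ∀ q ∈ E (σ l), ∀ q' ∈ E (σ l'), q < q' := by
    intro l l' hll q hq q' hq'
    obtain ⟨N', _, h2, h3, _⟩ := hsel l'
    have h4 := h3 (σ l) (h2 l hll) q hq
    have h5 := hE1 (σ l') q' hq'
    exact lt_of_lt_of_le h4 ((le_max_left _ _).trans h5)
  -- upper bound for sign sums
  have hupper : ∀ (A : Finset ℕ), A.card ≤ N → ∀ s : ℕ → ℝ, (∀ l, s l = 1 ∨ s l = -1) →
      ‖∑ l ∈ A, s l • v l‖ ≤ 2 := by
    intro A hA s hs
    obtain ⟨F, Θ, hF, hΘ, hsum⟩ := sum_blocks x A (fun l => E (σ l)) hdisj (fun l => θ (σ l)) s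
      (fun l i => hθ (σ l) i) hs
    have h1 : ∑ l ∈ A, s l • v l = c⁻¹ • ∑ i ∈ F, Θ i • x i := by
      rw [hsum, Finset.smul_sum]
      refine Finset.sum_congr rfl fun l _ => ?_
      simp only [hv, hw]
      rw [smul_comm]
    have h2 : F.card ≤ N ^ (r + 1) := by
      rw [hF, pow_succ']
      refine Finset.card_biUnion_le.trans ?_
      calc ∑ l ∈ A, (E (σ l)).card ≤ ∑ l ∈ A, N ^ r := Finset.sum_le_sum fun l _ => hE2 (σ l)
        _ = A.card * N ^ r := by simp
        _ ≤ N * N ^ r := Nat.mul_le_mul_right _ hA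
    have h3 : ∀ i ∈ F, k₀ ≤ i := by
      intro i hi
      rw [hF, Finset.mem_biUnion] at hi
      obtain ⟨l, _, hl⟩ := hi
      exact (le_max_right _ _).trans (hE1 (σ l) i hl)
    have h4 := hk₀ F h3 h2 Θ hΘ
    rw [h1, norm_smul, Real.norm_of_nonneg (by positivity), ← div_eq_inv_mul, div_le_iff₀ hc]
    exact h4.le
  obtain ⟨T, hT⟩ := exists_enum m
  set ρ : ℕ → ℕ → ℝ := fun p i => if p ∈ T i then 1 else -1 with hρ
  have hρ1 : ∀ p i, ρ p i = 1 ∨ ρ p i = -1 := fun p i => by simp only [hρ]; split_ifs <;> simp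
  refine ⟨fun p => ∑ i ∈ Finset.range N, ρ p i • v i, fun p => ?_, fun ε hε => ?_⟩
  · exact hupper (Finset.range N) (by simp) (ρ p) (hρ1 p)
  · -- the lower bound
    obtain ⟨i₀, hi₀, hTi₀⟩ := hT ((Finset.range m).filter fun p => ε p = 1) (Finset.filter_subset _ _)
    choose a ha1 ha2 using fun i => sum_signs_int (fun p => ε p * ρ p i) (fun p => by
      rcases hε p with h | h <;> rcases hρ1 p i with h' | h' <;> rw [h, h'] <;> norm_num) m
    have hai₀ : (a i₀ : ℝ) = m := by
      rw [ha2]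
      have : ∀ p ∈ Finset.range m, ε p * ρ p i₀ = 1 := by
        intro p hp
        simp only [hρ, hTi₀, Finset.mem_filter]
        rcases hε p with h | h
        · rw [if_pos ⟨hp, h⟩, h]; norm_num
        · rw [if_neg, h]
          · norm_num
          · rintro ⟨_, h2⟩
            rw [h] at h2
            norm_num at h2
      rw [Finset.sum_congr rfl this]
      simp
    set Sum : X := ∑ i ∈ Finset.range N, (a i : ℝ) • v i with hSum
    have hSum' : ∑ p ∈ Finset.range m, ε p • ∑ i ∈ Finset.range N, ρ p i • v i = Sum := by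
      simp_rw [Finset.smul_sum]
      rw [Finset.sum_comm]
      refine Finset.sum_congr rfl fun i _ => ?_
      rw [ha2, Finset.sum_smul]
      exact Finset.sum_congr rfl fun p _ => by rw [mul_smul]
    rw [hSum']
    -- sections
    have hsec : ∀ l ≤ N, ‖∑ i ∈ Finset.range l, (a i : ℝ) • v i‖ ≤ 2 * (‖Sum‖ + m / 8) := by
      intro l hl
      set sl : X := ∑ i ∈ Finset.range l, (a i : ℝ) • v i with hsl
      have hsmall : ∀ i, l ≤ i → |Φ sl (v i)| ≤ ε₀ := by
        intro i hi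
        obtain ⟨N', _, h2, _, h4⟩ := hsel i
        refine h4 sl ?_
        -- `sl` is a combination of `w q` for `q < N'`
        refine ⟨fun q => if h : ∃ j < l, σ j = q then a h.choose else 0, fun q => ?_, ?_⟩
        · dsimp only
          split_ifs with h
          · exact ha1 _
          · simp
        · rw [hsl]
          have hinj : ∀ j ∈ Finset.range l, ∀ j' ∈ Finset.range l, σ j = σ j' → j = j' :=
            fun j _ j' _ h => hσ.injective h
          have himg : (Finset.range l).image σ ⊆ Finset.range N' := by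
            intro q hq
            obtain ⟨j, hj, rfl⟩ := Finset.mem_image.mp hq
            exact Finset.mem_range.mpr (h2 j ((Finset.mem_range.mp hj).trans_le hi))
          rw [← Finset.sum_subset himg]
          · rw [Finset.sum_image hinj]
            refine Finset.sum_congr rfl fun j hj => ?_
            have h : ∃ j' < l, σ j' = σ j := ⟨j, Finset.mem_range.mp hj, rfl⟩
            have hj' : h.choose = j := hσ.injective h.choose_spec.2
            dsimp only
            rw [dif_pos h, hj']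
          · intro q _ hq
            have h : ¬ ∃ j < l, σ j = q := by
              rintro ⟨j, hj, rfl⟩
              exact hq (Finset.mem_image.mpr ⟨j, Finset.mem_range.mpr hj, rfl⟩)
            dsimp only
            rw [dif_neg h]
            simp
      have hsplit : Sum = sl + ∑ i ∈ (Finset.range N).filter (fun i => ¬ i < l), (a i : ℝ) • v i := by
        rw [hSum, hsl, ← Finset.sum_filter_add_sum_filter_not (Finset.range N) (fun i => i < l)]
        congr 1
        refine Finset.sum_congr ?_ fun _ _ => rfl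
        ext i
        simp only [Finset.mem_filter, Finset.mem_range]
        omega
      have htail : |Φ sl (∑ i ∈ (Finset.range N).filter (fun i => ¬ i < l), (a i : ℝ) • v i)|
          ≤ m / 8 := by
        rw [map_sum]
        refine (Finset.abs_sum_le_sum_abs _ _).trans ?_
        calc ∑ i ∈ (Finset.range N).filter (fun i => ¬ i < l), |Φ sl ((a i : ℝ) • v i)|
            ≤ ∑ i ∈ (Finset.range N).filter (fun i => ¬ i < l), (m : ℝ) * ε₀ := by
              refine Finset.sum_le_sum fun i hi => ?_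
              rw [map_smul, smul_eq_mul, abs_mul]
              have h5 : |(a i : ℝ)| ≤ m := by exact_mod_cast ha1 i
              exact mul_le_mul h5 (hsmall i (not_lt.mp (Finset.mem_filter.mp hi).2)) (abs_nonneg _)
                (by positivity)
          _ ≤ ∑ i ∈ Finset.range N, (m : ℝ) * ε₀ :=
              Finset.sum_le_sum_of_subset_of_nonneg (Finset.filter_subset _ _)
                (fun _ _ _ => by positivity)
          _ = N * (m * ε₀) := by simp
          _ = m / 8 := by rw [hε₀]; field_simp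
      have h6 : Φ sl Sum ≤ ‖Sum‖ := by
        have h7 := (Φ sl).le_opNorm Sum
        have h8 : ‖Φ sl‖ * ‖Sum‖ ≤ 1 * ‖Sum‖ :=
          mul_le_mul_of_nonneg_right (hΦ2 sl) (norm_nonneg _)
        have h9 := le_abs_self (Φ sl Sum)
        rw [Real.norm_eq_abs] at h7
        linarith
      have h10 : Φ sl Sum = Φ sl sl
          + Φ sl (∑ i ∈ (Finset.range N).filter (fun i => ¬ i < l), (a i : ℝ) • v i) := by
        rw [← map_add, ← hsplit]
      have h11 := hΦ3 sl
      have h12 := (abs_le.mp htail).1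
      linarith
    have h1 := hsec i₀ hi₀.le
    have h2 := hsec (i₀ + 1) hi₀
    rw [Finset.sum_range_succ, hai₀] at h2
    have h3 : (m : ℝ) ≤ ‖(m : ℝ) • v i₀‖ := by
      rw [norm_smul, Real.norm_of_nonneg hmposR.le]
      have := hw1 (σ i₀)
      simp only [hv]
      nlinarith
    have h4 : ‖(m : ℝ) • v i₀‖ ≤ ‖∑ i ∈ Finset.range i₀, (a i : ℝ) • v i + (m : ℝ) • v i₀‖
        + ‖∑ i ∈ Finset.range i₀, (a i : ℝ) • v i‖ := by
      have h5 : (m : ℝ) • v i₀ = (∑ i ∈ Finset.range i₀, (a i : ℝ) • v i + (m : ℝ) • v i₀)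
          - ∑ i ∈ Finset.range i₀, (a i : ℝ) • v i := by abel
      calc ‖(m : ℝ) • v i₀‖ = ‖(∑ i ∈ Finset.range i₀, (a i : ℝ) • v i + (m : ℝ) • v i₀)
          - ∑ i ∈ Finset.range i₀, (a i : ℝ) • v i‖ := by rw [← h5]
        _ ≤ _ := norm_sub_le _ _
    linarith

end Pool.Agent.Lib.MP_f761d9_an
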