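import Mathlib

/-!
# The greedy construction: either bounded non-summable subsums or a compact separating set
-/

set_option autoImplicit false

namespace Pool.Agent.Lib.MP_f761d9_an

open Filter Topology

variable {X : Type*} [NormedAddCommGroup X]

/-- the vectors `h` which change `b` by at most `δ` at all points of `S` -/
def admissible (b : X → ℝ) (δ : ℝ) (S : Finset X) : Set X :=
  {h | ∀ k ∈ S, |b (k + h) - b k| ≤ δ}

open Classical in
/-- an admissible vector whose norm is at least half of the largest possible -/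
noncomputable def nextVec (b : X → ℝ) (δ : ℝ) (S : Finset X) : X :=
  if H : ∃ h ∈ admissible b δ S, ∀ h' ∈ admissible b δ S, ‖h'‖ ≤ 2 * ‖h‖ then H.choose else 0

lemma exists_almost_max {A : Set X} (hne : A.Nonempty) (R : ℝ) (hA : ∀ h ∈ A, ‖h‖ ≤ R) :
    ∃ h ∈ A, ∀ h' ∈ A, ‖h'‖ ≤ 2 * ‖h‖ := by
  set T : Set ℝ := (fun h => ‖h‖) '' A with hT
  have hbdd : BddAbove T := ⟨R, by rintro _ ⟨h, hh, rfl⟩; exact hA h hh⟩
  have hTne : T.Nonempty := hne.image _
  by_cases hs : sSup T ≤ 0
  · obtain ⟨h, hh⟩ := hne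
    refine ⟨h, hh, fun h' hh' => ?_⟩
    have h1 : ‖h'‖ ≤ sSup T := le_csSup hbdd ⟨h', hh', rfl⟩
    have h2 : 0 ≤ ‖h‖ := norm_nonneg h
    linarith
  · push Not at hs
    obtain ⟨_, ⟨h, hh, rfl⟩, hlt⟩ := exists_lt_of_lt_csSup hTne (show sSup T / 2 < sSup T by linarith)
    refine ⟨h, hh, fun h' hh' => ?_⟩
    have h1 : ‖h'‖ ≤ sSup T := le_csSup hbdd ⟨h', hh', rfl⟩
    have h2 : sSup T / 2 < ‖h‖ := hlt
    linarith

/-- the increasing finite sets -/
noncomputable def kSet (b : X → ℝ) (δ : ℕ → ℝ) : ℕ → Finset X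
  | 0 => {0}
  | n + 1 => by
      classical
      exact kSet b δ n ∪ (kSet b δ n).image (fun k => k + nextVec b (δ n) (kSet b δ n))

/-- the greedy vectors -/
noncomputable def uVec (b : X → ℝ) (δ : ℕ → ℝ) (n : ℕ) : X := nextVec b (δ n) (kSet b δ n)

lemma kSet_succ (b : X → ℝ) (δ : ℕ → ℝ) (n : ℕ) (k : X) :
    k ∈ kSet b δ (n + 1) ↔ k ∈ kSet b δ n ∨ ∃ k' ∈ kSet b δ n, k' + uVec b δ n = k := by
  classical
  simp only [kSet, uVec, Finset.mem_union, Finset.mem_image]

lemma kSet_zero (b : X → ℝ) (δ : ℕ → ℝ) : kSet b δ 0 = {0} := rfl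

lemma zero_mem_kSet (b : X → ℝ) (δ : ℕ → ℝ) (n : ℕ) : (0 : X) ∈ kSet b δ n := by
  induction n with
  | zero => simp [kSet_zero]
  | succ n ih => exact (kSet_succ b δ n 0).mpr (Or.inl ih)

/-- the elements of `kSet n` are the subsums of the first `n` vectors -/
lemma mem_kSet_iff (b : X → ℝ) (δ : ℕ → ℝ) (n : ℕ) (k : X) :
    k ∈ kSet b δ n ↔ ∃ F ⊆ Finset.range n, ∑ i ∈ F, uVec b δ i = k := by
  classical
  induction n generalizing k with
  | zero =>
    simp only [kSet_zero, Finset.mem_singleton, Finset.range_zero, Finset.subset_empty]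
    constructor
    · rintro rfl; exact ⟨∅, rfl, by simp⟩
    · rintro ⟨F, rfl, h⟩; simpa using h.symm
  | succ n ih =>
    rw [kSet_succ]
    constructor
    · rintro (h | ⟨k', hk', rfl⟩)
      · obtain ⟨F, hF, hk⟩ := (ih k).mp h
        exact ⟨F, hF.trans (Finset.range_mono (Nat.le_succ n)), hk⟩
      · obtain ⟨F, hF, hk⟩ := (ih k').mp hk'
        have hn : n ∉ F := fun h => by simpa using hF h
        refine ⟨insert n F, ?_, ?_⟩
        · intro i hi
          rcases Finset.mem_insert.mp hi with rfl | hi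
          · simp
          · exact Finset.range_mono (Nat.le_succ n) (hF hi)
        · rw [Finset.sum_insert hn, hk, add_comm]
    · rintro ⟨F, hF, rfl⟩
      by_cases hn : n ∈ F
      · right
        refine ⟨∑ i ∈ F.erase n, uVec b δ i, (ih _).mpr ⟨F.erase n, ?_, rfl⟩, ?_⟩
        · intro i hi
          have h1 := Finset.mem_erase.mp hi
          have h2 := Finset.mem_range.mp (hF h1.2)
          exact Finset.mem_range.mpr (by omega)
        · rw [Finset.sum_erase_add _ _ hn]
      · left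
        refine (ih _).mpr ⟨F, fun i hi => ?_, rfl⟩
        have h2 := Finset.mem_range.mp (hF hi)
        have h3 : i ≠ n := fun h => hn (h ▸ hi)
        exact Finset.mem_range.mpr (by omega)

section

variable (b : X → ℝ) (R : ℝ) (hb0 : b 0 = 1) (hbR : ∀ x, b x ≠ 0 → ‖x‖ ≤ R)

/-- the allowed losses -/
noncomputable def loss (n : ℕ) : ℝ := (1 / 2) ^ (n + 2)

lemma loss_pos (n : ℕ) : 0 < loss n := by unfold loss; positivity

lemma loss_le (n : ℕ) : loss n ≤ 1 / 4 := by
  unfold loss
  calc ((1 : ℝ) / 2) ^ (n + 2) ≤ (1 / 2) ^ 2 :=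
        pow_le_pow_of_le_one (by norm_num) (by norm_num) (by omega)
    _ = 1 / 4 := by norm_num

include hb0 hbR in
lemma admissible_bounded (n : ℕ) (h : X) (hh : h ∈ admissible b (loss n) (kSet b loss n)) :
    ‖h‖ ≤ R := by
  have h1 := hh 0 (zero_mem_kSet b loss n)
  rw [zero_add, hb0] at h1
  refine hbR h fun h2 => ?_
  rw [h2] at h1
  have := loss_le n
  norm_num at h1
  linarith

include hb0 hbR in
lemma uVec_spec (n : ℕ) : uVec b loss n ∈ admissible b (loss n) (kSet b loss n) ∧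
    ∀ h' ∈ admissible b (loss n) (kSet b loss n), ‖h'‖ ≤ 2 * ‖uVec b loss n‖ := by
  have H : ∃ h ∈ admissible b (loss n) (kSet b loss n),
      ∀ h' ∈ admissible b (loss n) (kSet b loss n), ‖h'‖ ≤ 2 * ‖h‖ := by
    refine exists_almost_max ⟨0, fun k _ => ?_⟩ R (admissible_bounded b R hb0 hbR n)
    simp [(loss_pos n).le]
  unfold uVec nextVec
  rw [dif_pos H]
  exact H.choose_spec

include hb0 hbR in
lemma b_lower (n : ℕ) : ∀ k ∈ kSet b loss n, 1 / 2 + loss n * 2 ≤ b k := by
  induction n with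
  | zero =>
    intro k hk
    rw [kSet_zero, Finset.mem_singleton] at hk
    rw [hk, hb0]
    unfold loss
    norm_num
  | succ n ih =>
    intro k hk
    have e : loss (n + 1) * 2 = loss n := by unfold loss; rw [pow_succ]; ring
    have hp := loss_pos n
    rcases (kSet_succ b loss n k).mp hk with h | ⟨k', hk', rfl⟩
    · have := ih k h
      linarith
    · have h1 := ih k' hk'
      have h2 := (uVec_spec b R hb0 hbR n).1 k' hk'
      have h3 := (abs_le.mp h2).1
      linarith

include hb0 hbR in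
lemma norm_subsum_le (F : Finset ℕ) : ‖∑ i ∈ F, uVec b loss i‖ ≤ R := by
  obtain ⟨n, hn⟩ : ∃ n, F ⊆ Finset.range n := by
    obtain ⟨n, hn⟩ := F.exists_nat_subset_range
    exact ⟨n, hn⟩
  have hk := (mem_kSet_iff b loss n (∑ i ∈ F, uVec b loss i)).mpr ⟨F, hn, rfl⟩
  have h1 := b_lower b R hb0 hbR n _ hk
  have h2 := loss_pos n
  exact hbR _ (by linarith)

include hb0 hbR in
/-- if `∑ u n` does not converge unconditionally -/
lemma exists_blocks [CompleteSpace X] (hns : ¬ Summable (uVec b loss)) :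
    ∃ v : ℕ → X, ∃ ε > 0, (∀ n, ε ≤ ‖v n‖) ∧ ∀ F : Finset ℕ, ‖∑ n ∈ F, v n‖ ≤ R := by
  classical
  rw [summable_iff_vanishing_norm] at hns
  push Not at hns
  obtain ⟨ε, hε, h⟩ := hns
  choose t ht1 ht2 using h
  -- the blocks
  let acc : ℕ → Finset ℕ := fun n => Nat.rec ∅ (fun _ s => s ∪ t s) n
  have hacc : ∀ n, acc (n + 1) = acc n ∪ t (acc n) := fun n => rfl
  have hmono : Monotone acc := monotone_nat_of_le_succ fun n => by
    rw [hacc]; exact Finset.subset_union_left
  have hsub : ∀ m n, m < n → t (acc m) ⊆ acc n := by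
    intro m n hmn
    have h1 : t (acc m) ⊆ acc (m + 1) := by rw [hacc]; exact Finset.subset_union_right
    exact h1.trans (hmono hmn)
  have hdisj : ∀ m n, m < n → Disjoint (t (acc m)) (t (acc n)) := by
    intro m n hmn
    exact Disjoint.mono_left (hsub m n hmn) (ht1 (acc n)).symm
  have hpd : ∀ m n, m ≠ n → Disjoint (t (acc m)) (t (acc n)) := by
    intro m n hmn
    rcases lt_or_gt_of_ne hmn with h | h
    · exact hdisj m n h
    · exact (hdisj n m h).symm
  refine ⟨fun n => ∑ i ∈ t (acc n), uVec b loss i, ε, hε, fun n => ht2 _, fun F => ?_⟩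
  rw [← Finset.sum_biUnion (fun m _ n _ hmn => hpd m n hmn)]
  exact norm_subsum_le b R hb0 hbR _

include hb0 hbR in
/-- if `∑ u n` converges unconditionally, the closure of the set of subsums is compact, and it
separates. -/
lemma exists_compact [CompleteSpace X] (hs : Summable (uVec b loss)) :
    ∃ K : Set X, IsCompact K ∧ (0 : X) ∈ K ∧ ∀ η > 0, ∃ δ > 0, ∃ S : Finset X, (↑S : Set X) ⊆ K ∧
      ∀ h : X, η ≤ ‖h‖ → ∃ k ∈ S, δ < |b (k + h) - b k| := by
  classical
  set A : Set X := ⋃ n, (kSet b loss n : Set X) with hA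
  refine ⟨closure A, ?_, subset_closure (Set.mem_iUnion.mpr ⟨0, zero_mem_kSet b loss 0⟩), ?_⟩
  · refine TotallyBounded.isCompact_of_isClosed ?_ isClosed_closure
    refine TotallyBounded.closure ?_
    rw [Metric.totallyBounded_iff]
    intro ε hε
    rw [summable_iff_vanishing_norm] at hs
    obtain ⟨s, hs⟩ := hs ε hε
    obtain ⟨N, hN⟩ := s.exists_nat_subset_range
    refine ⟨kSet b loss N, (kSet b loss N).finite_toSet, ?_⟩
    intro k hk
    obtain ⟨n, hn⟩ := Set.mem_iUnion.mp hk
    obtain ⟨F, hF, rfl⟩ := (mem_kSet_iff b loss n k).mp hn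
    rw [Set.mem_iUnion₂]
    refine ⟨∑ i ∈ F with i < N, uVec b loss i, (mem_kSet_iff b loss N _).mpr
      ⟨F.filter (fun i => i < N), fun i hi => Finset.mem_range.mpr (Finset.mem_filter.mp hi).2, rfl⟩, ?_⟩
    rw [Metric.mem_ball, dist_eq_norm, ← Finset.sum_filter_add_sum_filter_not F (fun i => i < N),
      add_sub_cancel_left]
    refine hs _ ?_
    rw [Finset.disjoint_left]
    intro i hi his
    exact (Finset.mem_filter.mp hi).2 (Finset.mem_range.mp (hN his))
  · intro η hη
    have h1 := hs.tendsto_atTop_zero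
    obtain ⟨N, hN⟩ := (Metric.tendsto_atTop.mp h1) (η / 2) (by positivity)
    have h2 := hN N le_rfl
    rw [dist_zero_right] at h2
    refine ⟨loss N, loss_pos N, kSet b loss N, fun k hk => subset_closure
      (Set.mem_iUnion.mpr ⟨N, hk⟩), fun h hh => ?_⟩
    by_contra hcon
    push Not at hcon
    have h3 := (uVec_spec b R hb0 hbR N).2 h hcon
    linarith

end

end Pool.Agent.Lib.MP_f761d9_an
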