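import Mathlib

/-!
# From a nearly biorthogonal system with bounded shifts to an isomorphism with hyperplanes
-/

set_option autoImplicit false

namespace Pool.Agent.Lib.MP_f761d9_an

open Filter Topology

variable {X : Type*} [NormedAddCommGroup X] [NormedSpace ℝ X]

/-- Kernels of two nonzero functionals are isomorphic. -/
theorem ker_equiv_ker (φ ψ : X →L[ℝ] ℝ) (hφ : φ ≠ 0) (hψ : ψ ≠ 0) :
    Nonempty (LinearMap.ker φ.toLinearMap ≃L[ℝ] LinearMap.ker ψ.toLinearMap) := by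
  -- a vector on which both are nonzero
  obtain ⟨u, hu1, hu2⟩ : ∃ u, φ u ≠ 0 ∧ ψ u ≠ 0 := by
    obtain ⟨a, ha⟩ : ∃ a, φ a ≠ 0 := by
      by_contra h; push Not at h; exact hφ (ContinuousLinearMap.ext h)
    obtain ⟨c, hc⟩ : ∃ c, ψ c ≠ 0 := by
      by_contra h; push Not at h; exact hψ (ContinuousLinearMap.ext h)
    by_cases h1 : ψ a = 0
    · by_cases h2 : φ c = 0
      · exact ⟨a + c, by simp [h2, ha], by simp [h1, hc]⟩
      · exact ⟨c, h2, hc⟩
    · exact ⟨a, ha, h1⟩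
  let T : X →L[ℝ] X := ContinuousLinearMap.id ℝ X - ((ψ u)⁻¹ • ψ).smulRight u
  let T' : X →L[ℝ] X := ContinuousLinearMap.id ℝ X - ((φ u)⁻¹ • φ).smulRight u
  have hT : ∀ v, T v = v - ((ψ u)⁻¹ * ψ v) • u := fun v => by simp [T]
  have hT' : ∀ v, T' v = v - ((φ u)⁻¹ * φ v) • u := fun v => by simp [T']
  refine ⟨ContinuousLinearEquiv.equivOfInverse
    ((T.comp (LinearMap.ker φ.toLinearMap).subtypeL).codRestrict (LinearMap.ker ψ.toLinearMap) ?_)
    ((T'.comp (LinearMap.ker ψ.toLinearMap).subtypeL).codRestrict (LinearMap.ker φ.toLinearMap) ?_)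
    ?_ ?_⟩
  · intro v
    simp [LinearMap.mem_ker, hT]
    field_simp
    ring
  · intro v
    simp [LinearMap.mem_ker, hT']
    field_simp
    ring
  · rintro ⟨v, hv⟩
    have hv' : φ v = 0 := hv
    ext
    simp [hT, hT', hv']
    field_simp
    simp
  · rintro ⟨v, hv⟩
    have hv' : ψ v = 0 := hv
    ext
    simp [hT, hT', hv']
    field_simp
    simp

/-- If `X × ℝ ≃ X`, then `X` is isomorphic to the kernel of each nonzero functional. -/
theorem equiv_ker_of_prod_equiv (e : (X × ℝ) ≃L[ℝ] X) (φ : X →L[ℝ] ℝ) (hφ : φ ≠ 0) :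
    Nonempty (X ≃L[ℝ] LinearMap.ker φ.toLinearMap) := by
  let ψ : X →L[ℝ] ℝ := (ContinuousLinearMap.snd ℝ X ℝ).comp (e.symm : X →L[ℝ] X × ℝ)
  have hψe : ∀ v, ψ v = (e.symm v).2 := fun v => rfl
  have hψ : ψ ≠ 0 := by
    intro h
    have : ψ (e (0, 1)) = 0 := by rw [h]; rfl
    rw [hψe] at this
    simp at this
  obtain ⟨g⟩ := ker_equiv_ker ψ φ hψ hφ
  let A : X →L[ℝ] LinearMap.ker ψ.toLinearMap :=
    ((e : X × ℝ →L[ℝ] X).comp (ContinuousLinearMap.inl ℝ X ℝ)).codRestrict _ (by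
      intro v
      show ψ (e (v, 0)) = 0
      rw [hψe]; simp)
  let B : LinearMap.ker ψ.toLinearMap →L[ℝ] X :=
    ((ContinuousLinearMap.fst ℝ X ℝ).comp (e.symm : X →L[ℝ] X × ℝ)).comp
      (LinearMap.ker ψ.toLinearMap).subtypeL
  have h1 : Function.LeftInverse B A := by
    intro v
    simp [A, B]
  have h2 : Function.RightInverse B A := by
    rintro ⟨v, hv⟩
    have hv' : (e.symm v).2 = 0 := hv
    ext
    simp only [A, B, ContinuousLinearMap.coe_codRestrict_apply, ContinuousLinearMap.comp_apply,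
      ContinuousLinearMap.inl_apply, ContinuousLinearEquiv.coe_coe, Submodule.subtypeL_apply,
      ContinuousLinearMap.coe_fst']
    rw [← hv']
    simp
  exact ⟨(ContinuousLinearEquiv.equivOfInverse A B h1 h2).trans g⟩

end Pool.Agent.Lib.MP_f761d9_an
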