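import Pool.Agent.Lib.MP_f761d9_an.Diag

/-!
# The case of a complemented copy of `ℓ_j`
-/

set_option autoImplicit false

namespace Pool.Agent.Lib.MP_f761d9_an

open Filter Topology Set
open scoped ContDiff

variable {X : Type*} [NormedAddCommGroup X] [NormedSpace ℝ X]

lemma UpperEst.comp {j : ℕ} {C : ℝ} {y : ℕ → X} (h : UpperEst j C y) (σ : ℕ → ℕ)
    (hσ : StrictMono σ) : UpperEst j C (fun n => y (σ n)) := by
  intro F a
  have h1 := h (F.map ⟨σ, hσ.injective⟩) (Function.extend σ a 0)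
  rw [Finset.sum_map, Finset.sum_map] at h1
  simp only [Function.Embedding.coeFn_mk, hσ.injective.extend_apply] at h1
  exact h1

/-- the functional `w ↦ B (y, …, y, w)` -/
noncomputable def slot (r : ℕ) (B : ContinuousMultilinearMap ℝ (fun _ : Fin (r + 2) => X) ℝ)
    (y : X) : X →L[ℝ] ℝ := B.curryRight (fun _ => y)

/-- the multilinear form `z ↦ B (z, w)` -/
noncomputable def fixLast (r : ℕ) (B : ContinuousMultilinearMap ℝ (fun _ : Fin (r + 2) => X) ℝ)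
    (w : X) : ContinuousMultilinearMap ℝ (fun _ : Fin (r + 1) => X) ℝ :=
  (ContinuousLinearMap.apply ℝ ℝ w).compContinuousMultilinearMap B.curryRight

lemma slot_apply (r : ℕ) (B : ContinuousMultilinearMap ℝ (fun _ : Fin (r + 2) => X) ℝ)
    (y w : X) : slot r B y w = fixLast r B w (fun _ => y) := rfl

lemma slot_self (r : ℕ) (B : ContinuousMultilinearMap ℝ (fun _ : Fin (r + 2) => X) ℝ)
    (y : X) : slot r B y y = B (fun _ => y) := by
  show B (Fin.snoc (fun _ => y) y) = B (fun _ => y)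
  congr 1
  funext i
  refine Fin.lastCases ?_ (fun i => ?_) i <;> simp

lemma norm_fixLast_le (r : ℕ) (B : ContinuousMultilinearMap ℝ (fun _ : Fin (r + 2) => X) ℝ)
    (w : X) : ‖fixLast r B w‖ ≤ ‖B‖ * ‖w‖ := by
  have h1 : ‖ContinuousLinearMap.apply ℝ ℝ w‖ ≤ ‖w‖ := by
    refine ContinuousLinearMap.opNorm_le_bound _ (norm_nonneg _) fun φ => ?_
    rw [ContinuousLinearMap.apply_apply, mul_comm]
    exact φ.le_opNorm w
  calc ‖fixLast r B w‖ ≤ ‖ContinuousLinearMap.apply ℝ ℝ w‖ * ‖B.curryRight‖ :=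
        ContinuousLinearMap.norm_compContinuousMultilinearMap_le _ _
    _ = ‖ContinuousLinearMap.apply ℝ ℝ w‖ * ‖B‖ := by rw [ContinuousMultilinearMap.curryRight_norm]
    _ ≤ ‖w‖ * ‖B‖ := mul_le_mul_of_nonneg_right h1 (norm_nonneg _)
    _ = ‖B‖ * ‖w‖ := mul_comm _ _

/-- the fundamental estimate -/
lemma sum_slot_le (r : ℕ) (B : ContinuousMultilinearMap ℝ (fun _ : Fin (r + 2) => X) ℝ)
    (y : ℕ → X) (C : ℝ) (hC : 0 < C) (hup : UpperEst (r + 2) C y) (w : X) (F : Finset ℕ) :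
    C * ∑ n ∈ F, |slot r B (y n) w| ^ (r + 2) ≤ (C * (‖B‖ * ‖w‖)) ^ (r + 2) := by
  set α : ℕ → ℝ := fun n => slot r B (y n) w with hα
  set S : ℝ := ∑ n ∈ F, |α n| ^ (r + 2) with hS
  have hS0 : 0 ≤ S := Finset.sum_nonneg fun _ _ => by positivity
  set B' := fixLast r B w with hB'
  have hB'n : ‖B'‖ ≤ ‖B‖ * ‖w‖ := norm_fixLast_le r B w
  set s : ℝ := (C * S) ^ (((r + 2 : ℕ) : ℝ)⁻¹) with hs
  have hCS : 0 ≤ C * S := by positivity
  have hs0 : 0 ≤ s := Real.rpow_nonneg hCS _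
  have hsj : s ^ (r + 2) = C * S := by
    rw [hs, Real.rpow_inv_natCast_pow hCS (by omega)]
  set z : Fin (r + 1) → ℕ → X := fun i n => (if i = 0 then α n else |α n|) • y n with hz
  have hzs : ∀ i, ∀ ε : ℕ → ℝ, (∀ n, ε n = 1 ∨ ε n = -1) → ‖∑ n ∈ F, ε n • z i n‖ ≤ s := by
    intro i ε hε
    have h1 := hup F (fun n => ε n * (if i = 0 then α n else |α n|))
    have h2 : ∑ n ∈ F, |ε n * (if i = 0 then α n else |α n|)| ^ (r + 2) = S := by
      refine Finset.sum_congr rfl fun n _ => ?_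
      congr 1
      have h3 : |ε n| = 1 := by rcases hε n with h | h <;> rw [h] <;> simp
      rw [abs_mul, h3, one_mul]
      split_ifs
      · rfl
      · exact abs_abs _
    have h4 : ∑ n ∈ F, (ε n * (if i = 0 then α n else |α n|)) • y n = ∑ n ∈ F, ε n • z i n :=
      Finset.sum_congr rfl fun n _ => by rw [mul_smul]
    rw [h2, h4, ← hsj] at h1
    exact le_of_pow_le_pow_left₀ (by omega) hs0 h1
  have h5 := diag_bound r B' F z s hzs
  have h6 : ∑ n ∈ F, B' (fun i => z i n) = S := by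
    refine Finset.sum_congr rfl fun n _ => ?_
    have h7 : B' (fun i => z i n) = (∏ i : Fin (r + 1), (if i = 0 then α n else |α n|)) •
        B' (fun _ => y n) := B'.map_smul_univ _ _
    have h8 : ∏ i : Fin (r + 1), (if i = 0 then α n else |α n|) = α n * |α n| ^ r := by
      rw [Fin.prod_univ_succ]
      simp [Fin.succ_ne_zero]
    have h9 : B' (fun _ => y n) = α n := rfl
    rw [h7, h8, h9, smul_eq_mul]
    have h10 : α n * |α n| ^ r * α n = |α n| ^ r * (α n * α n) := by ring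
    rw [h10, ← abs_mul_abs_self (α n)]
    ring
  rw [h6, abs_of_nonneg hS0] at h5
  have h11 : s ≤ C * ‖B'‖ := by
    rcases hs0.eq_or_lt with h0 | h0
    · rw [← h0]; positivity
    · have h12 : s ^ (r + 1) * s ≤ s ^ (r + 1) * (C * ‖B'‖) := by
        calc s ^ (r + 1) * s = C * S := by rw [← hsj]; ring
          _ ≤ C * (‖B'‖ * s ^ (r + 1)) := mul_le_mul_of_nonneg_left h5 hC.le
          _ = s ^ (r + 1) * (C * ‖B'‖) := by ring
      exact le_of_mul_le_mul_left h12 (by positivity)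
  rw [← hsj]
  refine pow_le_pow_left₀ hs0 (h11.trans ?_) _
  exact mul_le_mul_of_nonneg_left hB'n hC.le

theorem lp_case [CompleteSpace X] (r : ℕ)
    (B : ContinuousMultilinearMap ℝ (fun _ : Fin (r + 2) => X) ℝ) (y : ℕ → X) (L : ℝ)
    (hL : ∀ n, ‖y n‖ ≤ L) (C : ℝ) (hC : 0 < C) (hup : UpperEst (r + 2) C y) (c : ℝ) (hc : 0 < c)
    (hB : ∀ n, c ≤ |B (fun _ => y n)|)
    (hnull : ∀ n, Tendsto (fun m => slot r B (y n) (y m)) atTop (𝓝 0)) :
    Nonempty ((X × ℝ) ≃L[ℝ] X) := by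
  have hL0 : 0 ≤ L := (norm_nonneg _).trans (hL 0)
  set β : ℕ → ℝ := fun n => B (fun _ => y n) with hβ
  have hβ0 : ∀ n, β n ≠ 0 := fun n h => by
    have := hB n
    simp only [hβ] at h
    rw [h, abs_zero] at this
    linarith
  set f : ℕ → X →L[ℝ] ℝ := fun n => (β n)⁻¹ • slot r B (y n) with hf
  have hfa : ∀ n w, f n w = (β n)⁻¹ * slot r B (y n) w := fun n w => by simp [hf]
  have hinv : ∀ n, |(β n)⁻¹| ≤ c⁻¹ := fun n => by
    rw [abs_inv]
    exact inv_anti₀ hc (hB n)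
  -- the sequence `f n w` is in `ℓ_j`
  set D : ℝ := c⁻¹ * (C * ‖B‖) with hD
  have hD0 : 0 ≤ D := by positivity
  have hfj : ∀ (w : X) (F : Finset ℕ), C * ∑ n ∈ F, |f n w| ^ (r + 2) ≤ (D * ‖w‖) ^ (r + 2) := by
    intro w F
    have h1 := sum_slot_le r B y C hC hup w F
    have h2 : ∑ n ∈ F, |f n w| ^ (r + 2) ≤ (c⁻¹) ^ (r + 2) * ∑ n ∈ F, |slot r B (y n) w| ^ (r + 2) := by
      rw [Finset.mul_sum]
      refine Finset.sum_le_sum fun n _ => ?_
      rw [hfa, abs_mul, mul_pow]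
      exact mul_le_mul_of_nonneg_right (pow_le_pow_left₀ (abs_nonneg _) (hinv n) _) (by positivity)
    calc C * ∑ n ∈ F, |f n w| ^ (r + 2)
        ≤ C * ((c⁻¹) ^ (r + 2) * ∑ n ∈ F, |slot r B (y n) w| ^ (r + 2)) :=
          mul_le_mul_of_nonneg_left h2 hC.le
      _ = (c⁻¹) ^ (r + 2) * (C * ∑ n ∈ F, |slot r B (y n) w| ^ (r + 2)) := by ring
      _ ≤ (c⁻¹) ^ (r + 2) * (C * (‖B‖ * ‖w‖)) ^ (r + 2) :=
          mul_le_mul_of_nonneg_left h1 (by positivity)
      _ = (D * ‖w‖) ^ (r + 2) := by rw [← mul_pow, hD]; ring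
  have hτ : ∀ (τ : ℕ → ℕ), StrictMono τ → ∀ (w : X) (F : Finset ℕ),
      C * ∑ n ∈ F, |f (τ n) w| ^ (r + 2) ≤ (D * ‖w‖) ^ (r + 2) := by
    intro τ hτ w F
    have := hfj w (F.map ⟨τ, hτ.injective⟩)
    rwa [Finset.sum_map] at this
  have hτs : ∀ (τ : ℕ → ℕ), StrictMono τ → ∀ (w : X), Summable fun n => |f (τ n) w| ^ (r + 2) := by
    intro τ hτ' w
    refine summable_of_sum_le (fun _ => by positivity) (c := (D * ‖w‖) ^ (r + 2) / C) fun F => ?_
    rw [le_div_iff₀ hC]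
    have := hτ τ hτ' w F
    linarith
  have hup' : ∀ (τ σ : ℕ → ℕ), StrictMono τ → StrictMono σ → ∀ (w : X) (F : Finset ℕ),
      ‖∑ n ∈ F, f (τ n) w • y (σ n)‖ ^ (r + 2) ≤ C * ∑ n ∈ F, |f (τ n) w| ^ (r + 2) := by
    intro τ σ _ hσ w F
    exact hup.comp σ hσ F (fun n => f (τ n) w)
  have hsum : ∀ τ σ : ℕ → ℕ, StrictMono τ → StrictMono σ → ∀ w,
      Summable fun n => f (τ n) w • y (σ n) := by
    intro τ σ hτ' hσ' w
    rw [summable_iff_vanishing_norm]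
    intro ε hε
    obtain ⟨s, hs⟩ := summable_iff_vanishing_norm.mp (hτs τ hτ' w) (ε ^ (r + 2) / C) (by positivity)
    refine ⟨s, fun t ht => ?_⟩
    have h1 := hs t ht
    rw [Real.norm_of_nonneg (Finset.sum_nonneg fun _ _ => by positivity)] at h1
    have h2 := hup' τ σ hτ' hσ' w t
    have h3 : C * ∑ n ∈ t, |f (τ n) w| ^ (r + 2) < ε ^ (r + 2) := by
      rw [lt_div_iff₀ hC] at h1
      linarith
    exact lt_of_pow_lt_pow_left₀ _ hε.le (lt_of_le_of_lt h2 h3)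
  have hbd : ∀ τ σ : ℕ → ℕ, StrictMono τ → StrictMono σ → ∀ w,
      ‖∑' n, f (τ n) w • y (σ n)‖ ≤ D * ‖w‖ := by
    intro τ σ hτ' hσ' w
    refine le_of_tendsto ((hsum τ σ hτ' hσ' w).hasSum.norm) (Eventually.of_forall fun F => ?_)
    exact le_of_pow_le_pow_left₀ (by omega) (by positivity)
      ((hup' τ σ hτ' hσ' w F).trans (hτ τ hτ' w F))
  have hfn : ∀ n, ‖f n‖ ≤ c⁻¹ * (‖B‖ * L ^ (r + 1)) := by
    intro n
    refine ContinuousLinearMap.opNorm_le_bound _ (by positivity) fun w => ?_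
    rw [hfa, norm_mul, Real.norm_eq_abs]
    have h1 : ‖slot r B (y n) w‖ ≤ (‖B‖ * L ^ (r + 1)) * ‖w‖ := by
      rw [slot_apply]
      refine ((fixLast r B w).le_opNorm _).trans ?_
      rw [Finset.prod_const, Finset.card_univ, Fintype.card_fin]
      have h2 : ‖fixLast r B w‖ ≤ ‖B‖ * ‖w‖ := norm_fixLast_le r B w
      calc ‖fixLast r B w‖ * ‖y n‖ ^ (r + 1) ≤ (‖B‖ * ‖w‖) * L ^ (r + 1) :=
            mul_le_mul h2 (pow_le_pow_left₀ (norm_nonneg _) (hL n) _) (by positivity)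
              (by positivity)
        _ = (‖B‖ * L ^ (r + 1)) * ‖w‖ := by ring
    calc |(β n)⁻¹| * ‖slot r B (y n) w‖ ≤ c⁻¹ * ((‖B‖ * L ^ (r + 1)) * ‖w‖) :=
          mul_le_mul (hinv n) h1 (norm_nonneg _) (by positivity)
      _ = c⁻¹ * (‖B‖ * L ^ (r + 1)) * ‖w‖ := by ring
  refine system_theorem y f (max L (c⁻¹ * (‖B‖ * L ^ (r + 1)))) D
    (fun n => (hL n).trans (le_max_left _ _)) (fun n => (hfn n).trans (le_max_right _ _))
    (fun n => ?_) (fun n => ?_) (fun m => ?_) hsum hbd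
  · rw [hfa, slot_self]
    exact inv_mul_cancel₀ (hβ0 n)
  · have h1 := (hnull n).const_mul (β n)⁻¹
    rw [mul_zero] at h1
    exact h1
  · have h1 := (hτs id strictMono_id (y m)).tendsto_atTop_zero
    rw [Metric.tendsto_atTop] at h1 ⊢
    intro ε hε
    obtain ⟨N, hN⟩ := h1 (ε ^ (r + 2)) (by positivity)
    refine ⟨N, fun n hn => ?_⟩
    have h2 := hN n hn
    rw [Real.dist_0_eq_abs] at h2 ⊢
    rw [abs_of_nonneg (by positivity)] at h2
    exact lt_of_pow_lt_pow_left₀ _ hε.le h2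

end Pool.Agent.Lib.MP_f761d9_an
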