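import Pool.Agent.Lib.MP_f761d9_an.LpCase
import Pool.Agent.Lib.MP_f761d9_an.CZero
import Pool.Agent.Lib.MP_f761d9_an.Greedy
import Pool.Agent.Lib.MP_f761d9_an.Finite

/-!
# Separable spaces with a smooth bump are isomorphic to their hyperplanes
-/

set_option autoImplicit false

namespace Pool.Agent.Lib.MP_f761d9_an

open Filter Topology Set
open scoped ContDiff

variable {X : Type*} [NormedAddCommGroup X] [NormedSpace ℝ X]

/-- the functional `w ↦ D^(r+1) b (p) (y, …, y, w)` -/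
noncomputable def gam (b : X → ℝ) (r : ℕ) (p y : X) : X →L[ℝ] ℝ :=
  (iteratedFDeriv ℝ (r + 1) b p).curryRight (fun _ => y)

lemma continuous_gam (b : X → ℝ) (hb : ContDiff ℝ ∞ b) (r : ℕ) :
    Continuous fun q : X × X => gam b r q.1 q.2 := by
  have h1 : Continuous (iteratedFDeriv ℝ (r + 1) b) :=
    hb.continuous_iteratedFDeriv (by exact_mod_cast le_top)
  have h2 : Continuous fun q : X × X =>
      continuousMultilinearCurryRightEquiv' ℝ r X ℝ (iteratedFDeriv ℝ (r + 1) b q.1) :=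
    (continuousMultilinearCurryRightEquiv' ℝ r X ℝ).continuous.comp (h1.comp continuous_fst)
  have h3 : Continuous fun q : X × X => (fun _ : Fin r => q.2) :=
    continuous_pi fun _ => continuous_snd
  exact h2.eval h3

lemma isClosed_null (x : ℕ → X) (L : ℝ) (hL : ∀ n, ‖x n‖ ≤ L) :
    IsClosed {φ : X →L[ℝ] ℝ | Tendsto (fun n => φ (x n)) atTop (𝓝 0)} := by
  have hL0 : 0 ≤ L := (norm_nonneg _).trans (hL 0)
  refine isClosed_of_closure_subset fun φ hφ => ?_
  show Tendsto (fun n => φ (x n)) atTop (𝓝 0)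
  rw [Metric.tendsto_atTop]
  intro ε hε
  obtain ⟨ψ, hψ, hd⟩ := Metric.mem_closure_iff.mp hφ (ε / (2 * (L + 1))) (by positivity)
  obtain ⟨N, hN⟩ := (Metric.tendsto_atTop.mp hψ) (ε / 2) (by positivity)
  refine ⟨N, fun n hn => ?_⟩
  have h1 := hN n hn
  rw [Real.dist_0_eq_abs] at h1 ⊢
  have h2 : |(φ - ψ) (x n)| ≤ ε / (2 * (L + 1)) * L := by
    rw [← Real.norm_eq_abs]
    refine ((φ - ψ).le_opNorm _).trans ?_
    rw [dist_eq_norm] at hd
    exact mul_le_mul hd.le (hL n) (norm_nonneg _) (by positivity)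
  have h3 : ε / (2 * (L + 1)) * L < ε / 2 := by
    rw [div_mul_eq_mul_div, div_lt_div_iff₀ (by positivity) (by norm_num)]
    nlinarith
  have h4 : φ (x n) = (φ - ψ) (x n) + ψ (x n) := by simp
  rw [h4]
  calc |(φ - ψ) (x n) + ψ (x n)| ≤ |(φ - ψ) (x n)| + |ψ (x n)| := abs_add_le _ _
    _ < ε := by linarith

/-- existence of a normalised sequence which is null for countably many functionals -/
lemma exists_normalized_null (hinf : ¬ FiniteDimensional ℝ X) (g : ℕ → X →L[ℝ] ℝ) :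
    ∃ x : ℕ → X, (∀ n, ‖x n‖ = 1) ∧ ∀ k, Tendsto (fun n => g k (x n)) atTop (𝓝 0) := by
  have h1 : ∀ n : ℕ, ∃ v : X, ‖v‖ = 1 ∧ ∀ k < n, g k v = 0 := by
    intro n
    let T : X →ₗ[ℝ] (Fin n → ℝ) := LinearMap.pi fun k => (g k).toLinearMap
    have hT : ¬ Function.Injective T := fun h => hinf (FiniteDimensional.of_injective T h)
    have h2 : LinearMap.ker T ≠ ⊥ := fun h => hT (LinearMap.ker_eq_bot.mp h)
    obtain ⟨v, hv, hv0⟩ := (Submodule.ne_bot_iff _).mp h2
    have hvn : ‖v‖ ≠ 0 := norm_ne_zero_iff.mpr hv0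
    refine ⟨‖v‖⁻¹ • v, ?_, fun k hk => ?_⟩
    · rw [norm_smul, norm_inv, norm_norm, inv_mul_cancel₀ hvn]
    · have h3 : T v = 0 := hv
      have h4 : g k v = 0 := congrFun h3 ⟨k, hk⟩
      rw [map_smul, h4, smul_zero]
  choose x hx1 hx2 using h1
  refine ⟨x, hx1, fun k => ?_⟩
  refine tendsto_const_nhds.congr' ?_
  filter_upwards [eventually_gt_atTop k] with n hn
  exact (hx2 n k hn).symm

/-- The family of functionals. -/
lemma exists_family [TopologicalSpace.SeparableSpace X] (b : X → ℝ) (hb : ContDiff ℝ ∞ b) :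
    ∃ g : ℕ → X →L[ℝ] ℝ, (∀ v : X, ∃ φ ∈ Set.range g, ‖φ‖ ≤ 1 ∧ ‖v‖ ≤ 2 * φ v) ∧
      ∀ x, NullSeq (Set.range g) x → ∀ r p y, Tendsto (fun n => gam b r p y (x n)) atTop (𝓝 0) := by
  choose ψ hψ1 hψ2 using fun n => exists_dual_vector'' ℝ (TopologicalSpace.denseSeq X n)
  let d : ℕ → X × X := TopologicalSpace.denseSeq (X × X)
  let fam : ℕ → ℕ → X →L[ℝ] ℝ := fun s n =>
    match s with
    | 0 => ψ n
    | r + 1 => gam b r (d n).1 (d n).2
  let g : ℕ → X →L[ℝ] ℝ := fun k => fam (Nat.unpair k).1 (Nat.unpair k).2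
  have hg : ∀ s n, g (Nat.pair s n) = fam s n := fun s n => by simp [g]
  refine ⟨g, fun v => ?_, fun x hx r p y => ?_⟩
  · by_cases hv : v = 0
    · refine ⟨g (Nat.pair 0 0), ⟨Nat.pair 0 0, rfl⟩, ?_, ?_⟩
      · rw [hg]; exact hψ1 0
      · rw [hv]; simp
    · have hvn : 0 < ‖v‖ := norm_pos_iff.mpr hv
      obtain ⟨n, hn⟩ := (TopologicalSpace.denseRange_denseSeq X).exists_dist_lt v
        (show 0 < ‖v‖ / 4 by positivity)
      refine ⟨g (Nat.pair 0 n), Set.mem_range_self _, ?_, ?_⟩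
      · rw [hg]; exact hψ1 n
      · rw [hg]
        show ‖v‖ ≤ 2 * ψ n v
        set e := TopologicalSpace.denseSeq X n with he
        have h1 : ψ n e = ‖e‖ := hψ2 n
        rw [dist_eq_norm] at hn
        have h2 : |ψ n (v - e)| ≤ ‖v - e‖ := by
          rw [← Real.norm_eq_abs]
          refine ((ψ n).le_opNorm _).trans ?_
          calc ‖ψ n‖ * ‖v - e‖ ≤ 1 * ‖v - e‖ :=
                mul_le_mul_of_nonneg_right (hψ1 n) (norm_nonneg _)
            _ = ‖v - e‖ := one_mul _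
        have h3 : ‖v‖ ≤ ‖e‖ + ‖v - e‖ := by
          calc ‖v‖ = ‖e + (v - e)‖ := by congr 1; abel
            _ ≤ ‖e‖ + ‖v - e‖ := norm_add_le _ _
        rw [map_sub, h1] at h2
        have h4 := (abs_le.mp h2).1
        linarith
  · obtain ⟨⟨L, hL⟩, hnull⟩ := hx
    have hclosed := (isClosed_null x L hL).preimage (continuous_gam b hb r)
    have := isClosed_property (TopologicalSpace.denseRange_denseSeq (X × X)) hclosed (fun n => by
      have h1 := hnull (g (Nat.pair (r + 1) n)) (Set.mem_range_self _)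
      rw [hg] at h1
      exact h1) (p, y)
    exact this

lemma NullSeq.comp {𝓕 : Set (X →L[ℝ] ℝ)} {x : ℕ → X} (h : NullSeq 𝓕 x) {σ : ℕ → ℕ}
    (hσ : StrictMono σ) : NullSeq 𝓕 (fun n => x (σ n)) := by
  obtain ⟨⟨L, hL⟩, hn⟩ := h
  exact ⟨⟨L, fun n => hL _⟩, fun φ hφ => (hn φ hφ).comp hσ.tendsto_atTop⟩

lemma iteratedFDeriv_one_eq_gam (b : X → ℝ) (p v : X) :
    iteratedFDeriv ℝ 1 b p (fun _ => v) = gam b 0 p 0 v := by
  show _ = iteratedFDeriv ℝ 1 b p (Fin.snoc (fun _ : Fin 0 => (0 : X)) v)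
  congr 1

/-- The theorem for a normalised bump function. -/
theorem prod_equiv_of_bump [CompleteSpace X] [TopologicalSpace.SeparableSpace X]
    (hinf : ¬ FiniteDimensional ℝ X) (b : X → ℝ) (hb : ContDiff ℝ ∞ b) (hb0 : b 0 = 1) (R : ℝ)
    (hbR : ∀ x, b x ≠ 0 → ‖x‖ ≤ R) : Nonempty ((X × ℝ) ≃L[ℝ] X) := by
  by_cases hs : Summable (uVec b loss)
  swap
  · obtain ⟨v, ε, hε, hv, hR⟩ := exists_blocks b R hb0 hbR hs
    exact cZero_case v ε R hε hv hR
  obtain ⟨K, hK, -, hsep⟩ := exists_compact b R hb0 hbR hs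
  obtain ⟨g, hnorming, hgam⟩ := exists_family b hb
  set 𝓕 : Set (X →L[ℝ] ℝ) := Set.range g with h𝓕
  have hW1 : WProp 𝓕 b 1 := by
    intro p x hx
    simp_rw [iteratedFDeriv_one_eq_gam]
    exact hgam x hx 0 p 0
  by_cases hall : ∀ j, 1 ≤ j → WProp 𝓕 b j
  · -- contradiction
    exfalso
    obtain ⟨m, hm, hsmall⟩ := exists_small_signs b hb K hK hsep (1 / 8) (by norm_num)
    obtain ⟨x, hx1, hx2⟩ := exists_normalized_null hinf g
    have hx : NullSeq 𝓕 x := ⟨⟨1, fun n => (hx1 n).le⟩, by rintro _ ⟨k, rfl⟩; exact hx2 k⟩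
    obtain ⟨σ, hσ, C, hC, hup⟩ := exists_upper 𝓕 b hb K hK hsep (m + 1) (by omega)
      (fun i hi _ => hall i hi) x hx
    obtain ⟨y, hy1, hy2⟩ := exists_large_signs 𝓕 hnorming m hm C (fun n => x (σ n)) (hx.comp hσ)
      (fun n => (hx1 _).ge) hup
    obtain ⟨ε, hε, hlt⟩ := hsmall y hy1
    exact absurd (hy2 ε hε) (not_le.mpr hlt)
  · push Not at hall
    classical
    -- the least order
    have hex : ∃ j, 1 ≤ j ∧ ¬ WProp 𝓕 b j := hall
    obtain ⟨hj1, hjW⟩ := Nat.find_spec hex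
    set j := Nat.find hex with hj
    have hmin : ∀ i, 1 ≤ i → i < j → WProp 𝓕 b i := by
      intro i hi hij
      by_contra hcon
      exact Nat.find_min hex hij ⟨hi, hcon⟩
    have hj2 : 2 ≤ j := by
      by_contra hlt
      have : j = 1 := by omega
      rw [this] at hjW
      exact hjW hW1
    clear_value j
    obtain ⟨r, rfl⟩ : ∃ r, j = r + 2 := ⟨j - 2, by omega⟩
    unfold WProp at hjW
    push Not at hjW
    obtain ⟨p, x, hx, hnt⟩ := hjW
    -- a subsequence with large values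
    have hfreq : ∃ c > 0, ∃ᶠ n in atTop, c ≤ |iteratedFDeriv ℝ (r + 2) b p (fun _ => x n)| := by
      by_contra hcon
      push Not at hcon
      apply hnt
      rw [Metric.tendsto_nhds]
      intro ε hε
      have h1 := hcon ε hε
      filter_upwards [h1] with n hn
      rw [Real.dist_0_eq_abs]
      exact hn
    obtain ⟨c, hc, hfreq⟩ := hfreq
    obtain ⟨κ, hκ, hκc⟩ := extraction_of_frequently_atTop hfreq
    obtain ⟨σ, hσ, C, hC, hup⟩ := exists_upper 𝓕 b hb K hK hsep (r + 2) (by omega) hmin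
      (fun n => x (κ n)) (hx.comp hκ)
    obtain ⟨⟨L, hL⟩, -⟩ := id hx
    refine lp_case r (iteratedFDeriv ℝ (r + 2) b p) (fun n => x (κ (σ n))) L (fun n => hL _) C hC hup
      c hc (fun n => hκc _) (fun n => ?_)
    exact hgam _ ((hx.comp hκ).comp hσ) (r + 1) p _

/-- **Main theorem.** A separable infinite-dimensional real Banach space with a `C^∞`-smooth bump
function is isomorphic to its hyperplanes. -/
theorem equiv_ker_of_bump [CompleteSpace X] [TopologicalSpace.SeparableSpace X]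
    (hinf : ¬ FiniteDimensional ℝ X) (f : X → ℝ) (hf : ContDiff ℝ ∞ f)
    (hne : (Function.support f).Nonempty) (hbd : Bornology.IsBounded (Function.support f))
    (φ : X →L[ℝ] ℝ) (hφ : φ ≠ 0) : Nonempty (X ≃L[ℝ] LinearMap.ker φ.toLinearMap) := by
  obtain ⟨x₀, hx₀⟩ := hne
  have hx₀' : f x₀ ≠ 0 := hx₀
  obtain ⟨R, hR⟩ := hbd.exists_norm_le
  have hbc : ContDiff ℝ ∞ (fun x => f (x₀ + x) / f x₀) :=
    (hf.comp (contDiff_const.add contDiff_id)).div_const _
  obtain ⟨e⟩ := prod_equiv_of_bump hinf (fun x => f (x₀ + x) / f x₀) hbc (by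
      simp [div_self hx₀']) (R + ‖x₀‖) (fun x hx => by
    have h1 : f (x₀ + x) ≠ 0 := fun h => hx (by simp [h])
    have h2 := hR (x₀ + x) h1
    calc ‖x‖ = ‖(x₀ + x) - x₀‖ := by congr 1; abel
      _ ≤ ‖x₀ + x‖ + ‖x₀‖ := norm_sub_le _ _
      _ ≤ R + ‖x₀‖ := by linarith)
  exact equiv_ker_of_prod_equiv e φ hφ

end Pool.Agent.Lib.MP_f761d9_an
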