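import Pool.Agent.Lib.MP_f761d9_an.System

/-!
# Selection of subsequences, and the final form of the system theorem
-/

set_option autoImplicit false

namespace Pool.Agent.Lib.MP_f761d9_an

open Filter Topology

/-- Selection lemma: choose indices one after another, each with a property which may depend on
(an upper bound `N` for) all indices chosen before. -/
theorem exists_select (P : ℕ → ℕ → Prop) (hP : ∀ N, ∀ᶠ n in atTop, P N n) :
    ∃ σ : ℕ → ℕ, StrictMono σ ∧ ∀ m, ∃ N, m ≤ N ∧ (∀ i < m, σ i < N) ∧ P N (σ m) := by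
  have h1 : ∀ N, ∃ n, N ≤ n ∧ P N n := fun N => by
    obtain ⟨n, h1, h2⟩ := ((eventually_ge_atTop N).and (hP N)).exists
    exact ⟨n, h1, h2⟩
  choose g hg1 hg2 using h1
  let σ : ℕ → ℕ := fun m => Nat.rec (g 0) (fun _ s => g (s + 1)) m
  have hσ : ∀ m, σ (m + 1) = g (σ m + 1) := fun m => rfl
  have hmono : StrictMono σ := strictMono_nat_of_lt_succ fun m => by
    rw [hσ]
    exact Nat.lt_of_succ_le (hg1 _)
  refine ⟨σ, hmono, fun m => ?_⟩
  cases m with
  | zero => exact ⟨0, le_refl _, fun i hi => absurd hi (Nat.not_lt_zero _), hg2 0⟩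
  | succ m =>
    refine ⟨σ m + 1, ?_, fun i hi => ?_, hg2 _⟩
    · have := hmono.id_le m
      exact Nat.succ_le_succ this
    · exact Nat.lt_succ_of_le (hmono.monotone (Nat.lt_succ_iff.mp hi))

variable {X : Type*} [NormedAddCommGroup X] [NormedSpace ℝ X]

/-- Final form of the system theorem: from vectors `x n` and functionals `f n` which are bounded,
with `f n (x n) = 1`, asymptotically biorthogonal, and such that all series
`∑ f (τ n) v • x (σ n)`, `τ, σ` strictly increasing, converge with uniform bounds. -/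
theorem system_theorem [CompleteSpace X] (x : ℕ → X) (f : ℕ → X →L[ℝ] ℝ) (L C : ℝ)
    (hxL : ∀ n, ‖x n‖ ≤ L) (hfL : ∀ n, ‖f n‖ ≤ L) (hone : ∀ n, f n (x n) = 1)
    (hoff1 : ∀ n, Tendsto (fun m => f n (x m)) atTop (𝓝 0))
    (hoff2 : ∀ m, Tendsto (fun n => f n (x m)) atTop (𝓝 0))
    (hs : ∀ τ σ : ℕ → ℕ, StrictMono τ → StrictMono σ → ∀ v, Summable fun n => f (τ n) v • x (σ n))
    (hb : ∀ τ σ : ℕ → ℕ, StrictMono τ → StrictMono σ → ∀ v,
      ‖∑' n, f (τ n) v • x (σ n)‖ ≤ C * ‖v‖) :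
    Nonempty ((X × ℝ) ≃L[ℝ] X) := by
  -- parameters
  set L' : ℝ := max L 1 with hL'
  have hL1 : 1 ≤ L' := le_max_right _ _
  set θ : ℝ := (32 * L' ^ 2)⁻¹ with hθ
  have hL'0 : 0 < L' := by linarith
  have hθ0 : 0 < θ := by positivity
  have hθ1 : 32 * L' ^ 2 * θ ≤ 1 := by
    rw [hθ, mul_inv_cancel₀ (by positivity)]
  -- select
  obtain ⟨σ, hσ, hsel⟩ := exists_select
    (fun N n => ∀ i < N, |f i (x n)| ≤ θ * (1 / 4) ^ N ∧ |f n (x i)| ≤ θ * (1 / 4) ^ N) (by
      intro N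
      have e : ∀ i, ∀ᶠ n in atTop, |f i (x n)| ≤ θ * (1 / 4) ^ N ∧ |f n (x i)| ≤ θ * (1 / 4) ^ N := by
        intro i
        have hpos : 0 < θ * (1 / 4) ^ N := by positivity
        have e1 := (Metric.tendsto_nhds.mp (hoff1 i)) _ hpos
        have e2 := (Metric.tendsto_nhds.mp (hoff2 i)) _ hpos
        filter_upwards [e1, e2] with n h1 h2
        rw [Real.dist_0_eq_abs] at h1 h2
        exact ⟨h1.le, h2.le⟩
      have := (Set.finite_lt_nat N).eventually_all (l := atTop)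
        (p := fun i n => |f i (x n)| ≤ θ * (1 / 4) ^ N ∧ |f n (x i)| ≤ θ * (1 / 4) ^ N)
      exact this.mpr fun i _ => e i)
  have hquarter : ∀ (k l : ℕ), ((1 : ℝ) / 4) ^ (max k l) ≤ (1 / 2) ^ k * (1 / 2) ^ l := by
    intro k l
    have e1 : ((1 : ℝ) / 4) ^ (max k l) = (1 / 2) ^ (max k l) * (1 / 2) ^ (max k l) := by
      rw [← mul_pow]; norm_num
    rw [e1]
    have e2 : ((1 : ℝ) / 2) ^ (max k l) ≤ (1 / 2) ^ k :=
      pow_le_pow_of_le_one (by norm_num) (by norm_num) (le_max_left _ _)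
    have e3 : ((1 : ℝ) / 2) ^ (max k l) ≤ (1 / 2) ^ l :=
      pow_le_pow_of_le_one (by norm_num) (by norm_num) (le_max_right _ _)
    exact mul_le_mul e2 e3 (by positivity) (by positivity)
  have hoff : ∀ k l, k ≠ l → |f (σ k) (x (σ l))| ≤ θ * (1 / 2) ^ k * (1 / 2) ^ l := by
    intro k l hkl
    rcases lt_or_gt_of_ne hkl with h | h
    · obtain ⟨N, h1, h2, h3⟩ := hsel l
      refine ((h3 (σ k) (h2 k h)).1).trans ?_
      rw [mul_assoc]
      refine mul_le_mul_of_nonneg_left ?_ hθ0.le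
      refine le_trans ?_ (hquarter k l)
      rw [max_eq_right h.le]
      exact pow_le_pow_of_le_one (by norm_num) (by norm_num) h1
    · obtain ⟨N, h1, h2, h3⟩ := hsel k
      refine ((h3 (σ l) (h2 l h)).2).trans ?_
      rw [mul_assoc]
      refine mul_le_mul_of_nonneg_left ?_ hθ0.le
      refine le_trans ?_ (hquarter k l)
      rw [max_eq_left h.le]
      exact pow_le_pow_of_le_one (by norm_num) (by norm_num) h1
  have hsucc : StrictMono fun n => σ (n + 1) := fun a b hab => hσ (Nat.succ_lt_succ hab)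
  exact sys_equiv (fun n => x (σ n)) (fun n => f (σ n)) L' C θ hL1 hθ0.le hθ1
    (fun n => (hxL _).trans (le_max_left _ _)) (fun n => (hfL _).trans (le_max_left _ _))
    (fun n => hone _) hoff
    (hs σ σ hσ hσ) (hb σ σ hσ hσ)
    (hs σ (fun n => σ (n + 1)) hσ hsucc) (hb σ (fun n => σ (n + 1)) hσ hsucc)
    (hs (fun n => σ (n + 1)) σ hsucc hσ) (hb (fun n => σ (n + 1)) σ hsucc hσ)

end Pool.Agent.Lib.MP_f761d9_an
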