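import Pool.Agent.Lib.MP_f761d9_an.Iso

/-!
# Nearly biorthogonal systems with bounded shifts
-/

set_option autoImplicit false

namespace Pool.Agent.Lib.MP_f761d9_an

open Filter Topology

variable {X : Type*} [NormedAddCommGroup X] [NormedSpace ℝ X]

/-- Approximate inverses on both sides give an isomorphism. -/
theorem prod_equiv_of_approx [CompleteSpace X] (Φ : (X × ℝ) →L[ℝ] X) (Ψ : X →L[ℝ] (X × ℝ))
    (h1 : ∀ v, ‖Φ (Ψ v) - v‖ ≤ (1 / 2) * ‖v‖) (h2 : ∀ w, ‖Ψ (Φ w) - w‖ ≤ (1 / 2) * ‖w‖) :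
    Nonempty ((X × ℝ) ≃L[ℝ] X) := by
  have hunit : ∀ {Y : Type _} [NormedAddCommGroup Y] [NormedSpace ℝ Y] [CompleteSpace Y]
      (T : Y →L[ℝ] Y), (∀ v, ‖T v - v‖ ≤ (1 / 2) * ‖v‖) → IsUnit T := by
    intro Y _ _ _ T hT
    have hn : ‖(1 : Y →L[ℝ] Y) - T‖ < 1 := by
      have : ‖(1 : Y →L[ℝ] Y) - T‖ ≤ 1 / 2 := by
        refine ContinuousLinearMap.opNorm_le_bound _ (by norm_num) fun v => ?_
        have := hT v
        rw [norm_sub_rev] at this
        simpa using this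
      linarith
    have := isUnit_one_sub_of_norm_lt_one hn
    simpa using this
  have hu1 : IsUnit (Φ.comp Ψ) := hunit _ h1
  have hu2 : IsUnit (Ψ.comp Φ) := hunit _ h2
  have hinj : Function.Injective Φ := by
    intro a b hab
    obtain ⟨S, hS⟩ := hu2.exists_left_inv
    have e : ∀ w, S (Ψ (Φ w)) = w := fun w => by
      have := congrArg (fun T : (X × ℝ) →L[ℝ] (X × ℝ) => T w) hS
      simpa using this
    rw [← e a, ← e b, hab]
  have hsurj : Function.Surjective Φ := by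
    intro y
    obtain ⟨S, hS⟩ := hu1.exists_right_inv
    have := congrArg (fun T : X →L[ℝ] X => T y) hS
    exact ⟨Ψ (S y), by simpa using this⟩
  exact ⟨ContinuousLinearEquiv.ofBijective Φ (LinearMap.ker_eq_bot.mpr hinj)
    (LinearMap.range_eq_top.mpr hsurj)⟩

/-- The operator `v ↦ ∑ g n v • y n`. -/
noncomputable def opOf (g : ℕ → X →L[ℝ] ℝ) (y : ℕ → X) (C : ℝ)
    (hs : ∀ v, Summable fun n => g n v • y n) (hb : ∀ v, ‖∑' n, g n v • y n‖ ≤ C * ‖v‖) :
    X →L[ℝ] X :=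
  LinearMap.mkContinuous
    { toFun := fun v => ∑' n, g n v • y n
      map_add' := fun v w => by
        rw [← (hs v).tsum_add (hs w)]
        exact tsum_congr fun n => by rw [map_add, add_smul]
      map_smul' := fun c v => by
        rw [RingHom.id_apply, ← (hs v).tsum_const_smul]
        exact tsum_congr fun n => by rw [map_smul, smul_eq_mul, mul_smul] } C hb

theorem opOf_apply (g : ℕ → X →L[ℝ] ℝ) (y : ℕ → X) (C : ℝ)
    (hs : ∀ v, Summable fun n => g n v • y n) (hb : ∀ v, ‖∑' n, g n v • y n‖ ≤ C * ‖v‖) (v : X) :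
    opOf g y C hs hb v = ∑' n, g n v • y n := rfl

lemma summable_geom_half (c : ℝ) : Summable fun n : ℕ => c * (1 / 2 : ℝ) ^ n :=
  (summable_geometric_of_lt_one (by norm_num) (by norm_num)).mul_left c

lemma hasSum_geom_half (c : ℝ) : HasSum (fun n : ℕ => c * (1 / 2 : ℝ) ^ n) (2 * c) := by
  have := (hasSum_geometric_of_lt_one (by norm_num : (0 : ℝ) ≤ 1 / 2) (by norm_num)).mul_left c
  have e : c * (1 - 1 / 2 : ℝ)⁻¹ = 2 * c := by norm_num; ring
  rwa [e] at this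

/-- functional of a series, without main term -/
lemma abs_apply_tsum_le (φ : X →L[ℝ] ℝ) (g : ℕ → ℝ) (y : ℕ → X) (a b : ℝ)
    (hg : ∀ n, |g n| ≤ a) (hs : Summable fun n => g n • y n)
    (hy : ∀ n, |φ (y n)| ≤ b * (1 / 2) ^ n) :
    |φ (∑' n, g n • y n)| ≤ 2 * (a * b) := by
  rw [φ.map_tsum hs, ← Real.norm_eq_abs]
  have ha : 0 ≤ a := (abs_nonneg _).trans (hg 0)
  refine tsum_of_norm_bounded (hasSum_geom_half (a * b)) fun n => ?_
  rw [map_smul, smul_eq_mul, norm_mul, Real.norm_eq_abs, Real.norm_eq_abs, mul_assoc]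
  exact mul_le_mul (hg n) (hy n) (abs_nonneg _) ha

/-- functional of a series, with main term -/
lemma abs_apply_tsum_sub_le (φ : X →L[ℝ] ℝ) (g : ℕ → ℝ) (y : ℕ → X) (a b : ℝ) (hb0 : 0 ≤ b) (k : ℕ)
    (hg : ∀ n, |g n| ≤ a) (hs : Summable fun n => g n • y n)
    (hy : ∀ n, n ≠ k → |φ (y n)| ≤ b * (1 / 2) ^ n) :
    |φ (∑' n, g n • y n) - g k * φ (y k)| ≤ 2 * (a * b) := by
  rw [φ.map_tsum hs]
  have ha : 0 ≤ a := (abs_nonneg _).trans (hg 0)
  have hs' : Summable fun n => φ (g n • y n) := φ.summable hs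
  rw [hs'.tsum_eq_add_tsum_ite k, map_smul, smul_eq_mul, add_sub_cancel_left,
    ← Real.norm_eq_abs]
  refine tsum_of_norm_bounded (hasSum_geom_half (a * b)) fun n => ?_
  split_ifs with h
  · simp only [norm_zero]; positivity
  · rw [map_smul, smul_eq_mul, norm_mul, Real.norm_eq_abs, Real.norm_eq_abs, mul_assoc]
    exact mul_le_mul (hg n) (hy n h) (abs_nonneg _) ha

/-- bounded vectors times geometrically small coefficients -/
lemma norm_tsum_smul_le (e : ℕ → ℝ) (y : ℕ → X) (a L : ℝ)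
    (he : ∀ n, |e n| ≤ a * (1 / 2) ^ n) (hy : ∀ n, ‖y n‖ ≤ L) :
    ‖∑' n, e n • y n‖ ≤ 2 * (a * L) := by
  refine tsum_of_norm_bounded (hasSum_geom_half (a * L)) fun n => ?_
  rw [norm_smul, Real.norm_eq_abs]
  calc |e n| * ‖y n‖ ≤ (a * (1 / 2) ^ n) * L :=
        mul_le_mul (he n) (hy n) (norm_nonneg _) ((abs_nonneg _).trans (he n))
    _ = a * L * (1 / 2) ^ n := by ring

lemma summable_smul_of_geom [CompleteSpace X] (e : ℕ → ℝ) (y : ℕ → X) (a L : ℝ)
    (he : ∀ n, |e n| ≤ a * (1 / 2) ^ n) (hy : ∀ n, ‖y n‖ ≤ L) :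
    Summable fun n => e n • y n := by
  refine Summable.of_norm_bounded (summable_geom_half (a * L)) fun n => ?_
  rw [norm_smul, Real.norm_eq_abs]
  calc |e n| * ‖y n‖ ≤ (a * (1 / 2) ^ n) * L :=
        mul_le_mul (he n) (hy n) (norm_nonneg _) ((abs_nonneg _).trans (he n))
    _ = a * L * (1 / 2) ^ n := by ring

/-- The main algebraic step: a nearly biorthogonal system for which the three series below
converge gives an isomorphism `X × ℝ ≃ X`. -/
theorem sys_equiv [CompleteSpace X] (x : ℕ → X) (f : ℕ → X →L[ℝ] ℝ) (L C θ : ℝ)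
    (hL1 : 1 ≤ L) (hθ0 : 0 ≤ θ) (hθ : 32 * L ^ 2 * θ ≤ 1)
    (hxL : ∀ n, ‖x n‖ ≤ L) (hfL : ∀ n, ‖f n‖ ≤ L) (hone : ∀ n, f n (x n) = 1)
    (hoff : ∀ n m, n ≠ m → |f n (x m)| ≤ θ * (1 / 2) ^ n * (1 / 2) ^ m)
    (s00 : ∀ v, Summable fun n => f n v • x n) (b00 : ∀ v, ‖∑' n, f n v • x n‖ ≤ C * ‖v‖)
    (s01 : ∀ v, Summable fun n => f n v • x (n + 1))
    (b01 : ∀ v, ‖∑' n, f n v • x (n + 1)‖ ≤ C * ‖v‖)
    (s10 : ∀ v, Summable fun n => f (n + 1) v • x n)
    (b10 : ∀ v, ‖∑' n, f (n + 1) v • x n‖ ≤ C * ‖v‖) :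
    Nonempty ((X × ℝ) ≃L[ℝ] X) := by
  have hL0 : 0 ≤ L := by linarith
  set A0 : X →L[ℝ] X := opOf f x C s00 b00 with hA0
  set A1 : X →L[ℝ] X := opOf f (fun n => x (n + 1)) C s01 b01 with hA1
  set Am : X →L[ℝ] X := opOf (fun n => f (n + 1)) x C s10 b10 with hAm
  have a0 : ∀ v, A0 v = ∑' n, f n v • x n := fun v => rfl
  have a1 : ∀ v, A1 v = ∑' n, f n v • x (n + 1) := fun v => rfl
  have am : ∀ v, Am v = ∑' n, f (n + 1) v • x n := fun v => rfl
  have hfv : ∀ n v, |f n v| ≤ L * ‖v‖ := fun n v =>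
    ((f n).le_opNorm v).trans (mul_le_mul_of_nonneg_right (hfL n) (norm_nonneg _))
  -- half powers
  have hp : ∀ n : ℕ, (0 : ℝ) < (1 / 2) ^ n := fun n => by positivity
  have hp1 : ∀ n : ℕ, ((1 : ℝ) / 2) ^ (n + 1) ≤ (1 / 2) ^ n := fun n => by
    rw [pow_succ]; nlinarith [hp n]
  -- coefficient estimates
  have c0 : ∀ m v, |f m (A0 v) - f m v| ≤ 2 * (L * ‖v‖ * (θ * (1 / 2) ^ m)) := by
    intro m v
    have := abs_apply_tsum_sub_le (f m) (fun n => f n v) x (L * ‖v‖) (θ * (1 / 2) ^ m)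
      (by positivity) m (fun n => hfv n v) (s00 v) (fun n hn => hoff m n (Ne.symm hn))
    rwa [hone, mul_one, ← a0] at this
  have c1 : ∀ m v, |f (m + 1) (A1 v) - f m v| ≤ 2 * (L * ‖v‖ * (θ * (1 / 2) ^ (m + 1))) := by
    intro m v
    have := abs_apply_tsum_sub_le (f (m + 1)) (fun n => f n v) (fun n => x (n + 1)) (L * ‖v‖)
      (θ * (1 / 2) ^ (m + 1))
      (by positivity) m (fun n => hfv n v) (s01 v) (fun n hn => by
        refine (hoff (m + 1) (n + 1) (by omega)).trans ?_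
        exact mul_le_mul_of_nonneg_left (hp1 n) (by positivity))
    rwa [hone, mul_one, ← a1] at this
  have c1' : ∀ v, |f 0 (A1 v)| ≤ 2 * (L * ‖v‖ * θ) := by
    intro v
    have := abs_apply_tsum_le (f 0) (fun n => f n v) (fun n => x (n + 1)) (L * ‖v‖) θ
      (fun n => hfv n v) (s01 v) (fun n => by
        have h := hoff 0 (n + 1) (by omega)
        rw [pow_zero, mul_one] at h
        exact h.trans (mul_le_mul_of_nonneg_left (hp1 n) hθ0))
    rwa [← a1] at this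
  have cm : ∀ m v, |f m (Am v) - f (m + 1) v| ≤ 2 * (L * ‖v‖ * (θ * (1 / 2) ^ m)) := by
    intro m v
    have := abs_apply_tsum_sub_le (f m) (fun n => f (n + 1) v) x (L * ‖v‖) (θ * (1 / 2) ^ m)
      (by positivity) m (fun n => hfv (n + 1) v) (s10 v) (fun n hn => hoff m n (Ne.symm hn))
    rwa [hone, mul_one, ← am] at this
  set U : X →L[ℝ] X := ContinuousLinearMap.id ℝ X - A0 + A1 with hU
  set V : X →L[ℝ] X := ContinuousLinearMap.id ℝ X - A0 + Am with hV
  have hUv : ∀ v, U v = v - A0 v + A1 v := fun v => by simp [hU]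
  have hVv : ∀ v, V v = v - A0 v + Am v := fun v => by simp [hV]
  -- coefficients of U v
  have eU : ∀ m v, |f (m + 1) (U v) - f m v| ≤ 4 * L * θ * ‖v‖ * (1 / 2) ^ (m + 1) := by
    intro m v
    rw [hUv, map_add, map_sub]
    have h1 := abs_le.mp (c0 (m + 1) v)
    have h2 := abs_le.mp (c1 m v)
    rw [abs_le]
    constructor <;> linarith [h1.1, h1.2, h2.1, h2.2]
  have eU0 : ∀ v, |f 0 (U v)| ≤ 4 * L * θ * ‖v‖ := by
    intro v
    rw [hUv, map_add, map_sub]
    have h1 := abs_le.mp (c0 0 v)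
    have h2 := abs_le.mp (c1' v)
    rw [pow_zero, mul_one] at h1
    rw [abs_le]
    constructor <;> linarith [h1.1, h1.2, h2.1, h2.2]
  have eV : ∀ m v, |f m (V v) - f (m + 1) v| ≤ 4 * L * θ * ‖v‖ * (1 / 2) ^ m := by
    intro m v
    rw [hVv, map_add, map_sub]
    have h1 := abs_le.mp (c0 m v)
    have h2 := abs_le.mp (cm m v)
    rw [abs_le]
    constructor <;> linarith [h1.1, h1.2, h2.1, h2.2]
  -- the two maps
  let Φ : (X × ℝ) →L[ℝ] X := U.comp (ContinuousLinearMap.fst ℝ X ℝ)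
    + (ContinuousLinearMap.snd ℝ X ℝ).smulRight (x 0)
  let Ψ : X →L[ℝ] (X × ℝ) := V.prod (f 0)
  have hΦ : ∀ v t, Φ (v, t) = U v + t • x 0 := fun v t => by simp [Φ]
  have hΨ : ∀ v, Ψ v = (V v, f 0 v) := fun v => by simp [Ψ]
  have hx1 : ∀ n, ‖x (n + 1)‖ ≤ L := fun n => hxL (n + 1)
  refine prod_equiv_of_approx Φ Ψ ?_ ?_
  · -- Φ Ψ close to the identity
    intro v
    rw [hΨ, hΦ]
    have e1 : A0 (V v) = Am v + ∑' m, (f m (V v) - f (m + 1) v) • x m := by
      rw [a0, am, ← (s10 v).tsum_add (summable_smul_of_geom _ _ _ L (fun m => eV m v) hxL)]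
      exact tsum_congr fun m => by rw [← add_smul]; congr 1; ring
    have e2 : A1 (V v) = (A0 v - f 0 v • x 0) + ∑' m, (f m (V v) - f (m + 1) v) • x (m + 1) := by
      have e3 : A0 v - f 0 v • x 0 = ∑' m, f (m + 1) v • x (m + 1) := by
        rw [a0, (s00 v).tsum_eq_zero_add]
        simp
      have s3 : Summable fun m => f (m + 1) v • x (m + 1) := (summable_nat_add_iff 1).mpr (s00 v)
      rw [a1, e3, ← s3.tsum_add (summable_smul_of_geom _ _ _ L (fun m => eV m v) hx1)]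
      exact tsum_congr fun m => by rw [← add_smul]; congr 1; ring
    have e4 : U (V v) + f 0 v • x 0 - v
        = ∑' m, (f m (V v) - f (m + 1) v) • x (m + 1) - ∑' m, (f m (V v) - f (m + 1) v) • x m := by
      rw [hUv (V v), e1, e2, hVv v]
      abel
    rw [e4]
    have n1 := norm_tsum_smul_le _ _ _ L (fun m => eV m v) hxL
    have n2 := norm_tsum_smul_le _ _ _ L (fun m => eV m v) hx1
    refine (norm_sub_le _ _).trans ?_
    have h3 : 0 ≤ ‖v‖ := norm_nonneg v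
    have h4 : 32 * L ^ 2 * θ * ‖v‖ ≤ 1 * ‖v‖ := mul_le_mul_of_nonneg_right hθ h3
    linarith
  · -- Ψ Φ close to the identity
    rintro ⟨v, t⟩
    rw [hΦ, hΨ]
    have geomU : ∀ m, |f (m + 1) (U v) - f m v| ≤ (2 * L * θ * ‖v‖) * (1 / 2) ^ m := by
      intro m
      have := eU m v
      rw [pow_succ] at this
      linarith
    have e1 : A0 (U v) = A1 v + (f 0 (U v) • x 0 + ∑' m, (f (m + 1) (U v) - f m v) • x (m + 1)) := by
      rw [a0, (s00 (U v)).tsum_eq_zero_add, a1]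
      have s3 := summable_smul_of_geom _ _ _ L geomU hx1
      have e3 : ∑' m, f (m + 1) (U v) • x (m + 1)
          = ∑' m, f m v • x (m + 1) + ∑' m, (f (m + 1) (U v) - f m v) • x (m + 1) := by
        rw [← (s01 v).tsum_add s3]
        exact tsum_congr fun m => by rw [← add_smul]; congr 1; ring
      rw [e3]
      abel
    have e2 : Am (U v) = A0 v + ∑' m, (f (m + 1) (U v) - f m v) • x m := by
      rw [am, a0, ← (s00 v).tsum_add (summable_smul_of_geom _ _ _ L geomU hxL)]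
      exact tsum_congr fun m => by rw [← add_smul]; congr 1; ring
    have e4 : V (U v) - v = ∑' m, (f (m + 1) (U v) - f m v) • x m
        - (f 0 (U v) • x 0 + ∑' m, (f (m + 1) (U v) - f m v) • x (m + 1)) := by
      rw [hVv (U v), e1, e2, hUv v]
      abel
    have hx00 : ‖f 0 (U v) • x 0‖ ≤ 4 * L * θ * ‖v‖ * L := by
      rw [norm_smul, Real.norm_eq_abs]
      exact mul_le_mul (eU0 v) (hxL 0) (norm_nonneg _) (by positivity)
    have n1 := norm_tsum_smul_le _ _ _ L geomU hxL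
    have n2 := norm_tsum_smul_le _ _ _ L geomU hx1
    have n3 : ‖V (U v) - v‖ ≤ 12 * L ^ 2 * θ * ‖v‖ := by
      rw [e4]
      refine (norm_sub_le _ _).trans ?_
      have := norm_add_le (f 0 (U v) • x 0) (∑' m, (f (m + 1) (U v) - f m v) • x (m + 1))
      linarith
    -- V (x 0)
    have n4 : ‖V (x 0)‖ ≤ 4 * L * θ := by
      have s5 : Summable fun m => f (m + 1) (x 0) • x (m + 1) :=
        (summable_nat_add_iff 1).mpr (s00 (x 0))
      have e5 : V (x 0) = ∑' m, f (m + 1) (x 0) • x m - ∑' m, f (m + 1) (x 0) • x (m + 1) := by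
        rw [hVv, a0, am, (s00 (x 0)).tsum_eq_zero_add, hone, one_smul]
        abel
      have g5 : ∀ m, |f (m + 1) (x 0)| ≤ θ * (1 / 2) ^ m := by
        intro m
        have h := hoff (m + 1) 0 (by omega)
        rw [pow_zero, mul_one] at h
        exact h.trans (mul_le_mul_of_nonneg_left (hp1 m) hθ0)
      rw [e5]
      refine (norm_sub_le _ _).trans ?_
      have m1 := norm_tsum_smul_le _ _ _ L g5 hxL
      have m2 := norm_tsum_smul_le _ _ _ L g5 hx1
      linarith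
    have hv0 : 0 ≤ ‖v‖ := norm_nonneg v
    have ht0 : 0 ≤ ‖t‖ := norm_nonneg t
    have hvw : ‖v‖ ≤ ‖((v, t) : X × ℝ)‖ := norm_fst_le (v, t)
    have htw : ‖t‖ ≤ ‖((v, t) : X × ℝ)‖ := norm_snd_le (v, t)
    have hw0 : 0 ≤ ‖((v, t) : X × ℝ)‖ := norm_nonneg _
    have hkey : 32 * L ^ 2 * θ * ‖((v, t) : X × ℝ)‖ ≤ 1 * ‖((v, t) : X × ℝ)‖ :=
      mul_le_mul_of_nonneg_right hθ hw0
    have hL2 : L ≤ L ^ 2 := by nlinarith
    have hLθ : L * θ ≤ L ^ 2 * θ := mul_le_mul_of_nonneg_right hL2 hθ0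
    rw [Prod.norm_def]
    refine max_le ?_ ?_
    · show ‖V (U v + t • x 0) - v‖ ≤ _
      have e6 : V (U v + t • x 0) - v = (V (U v) - v) + t • V (x 0) := by
        rw [map_add, map_smul]; abel
      rw [e6]
      refine (norm_add_le _ _).trans ?_
      rw [norm_smul]
      have k1 : ‖V (U v) - v‖ ≤ 12 * (L ^ 2 * θ) * ‖((v, t) : X × ℝ)‖ := by
        refine n3.trans ?_
        have : 12 * L ^ 2 * θ * ‖v‖ = 12 * (L ^ 2 * θ) * ‖v‖ := by ring
        rw [this]
        exact mul_le_mul_of_nonneg_left hvw (by positivity)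
      have k2 : ‖t‖ * ‖V (x 0)‖ ≤ ‖((v, t) : X × ℝ)‖ * (4 * (L ^ 2 * θ)) :=
        mul_le_mul htw (n4.trans (by linarith)) (norm_nonneg _) hw0
      linarith
    · show ‖f 0 (U v + t • x 0) - t‖ ≤ _
      have e7 : f 0 (U v + t • x 0) - t = f 0 (U v) := by
        rw [map_add, map_smul, hone, smul_eq_mul, mul_one]; ring
      rw [e7, Real.norm_eq_abs]
      refine (eU0 v).trans ?_
      have k1 : 4 * (L * θ) * ‖v‖ ≤ 4 * (L ^ 2 * θ) * ‖((v, t) : X × ℝ)‖ :=
        mul_le_mul (by linarith) hvw hv0 (by positivity)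
      linarith

end Pool.Agent.Lib.MP_f761d9_an
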