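import Mathlib

/-!
# Taylor estimates for smooth functions on normed spaces
-/

set_option autoImplicit false

namespace Pool.Agent.Lib.MP_f761d9_an

open Filter Topology Set
open scoped ContDiff

variable {X : Type*} [NormedAddCommGroup X] [NormedSpace ℝ X]

lemma iteratedDeriv_line (f : X → ℝ) (hf : ContDiff ℝ ∞ f) (x h : X) (i : ℕ) :
    iteratedDeriv i (fun s : ℝ => f (x + s • h)) =
      fun s => iteratedFDeriv ℝ i f (x + s • h) (fun _ => h) := by
  induction i with
  | zero =>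
    funext s
    simp
  | succ i ih =>
    rw [iteratedDeriv_succ, ih]
    funext s
    have hd : Differentiable ℝ (iteratedFDeriv ℝ i f) :=
      hf.differentiable_iteratedFDeriv (by exact_mod_cast ENat.natCast_lt_top i)
    have hline : HasDerivAt (fun s : ℝ => x + s • h) h s := by
      have := ((hasDerivAt_id s).smul_const h).const_add x
      simpa using this
    have h1 : HasFDerivAt (iteratedFDeriv ℝ i f) (fderiv ℝ (iteratedFDeriv ℝ i f) (x + s • h))
        (x + s • h) := (hd _).hasFDerivAt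
    have h2 := h1.comp_hasDerivAt s hline
    have h3 : HasDerivAt (fun s : ℝ => iteratedFDeriv ℝ i f (x + s • h) (fun _ => h))
        ((fderiv ℝ (iteratedFDeriv ℝ i f) (x + s • h) h) (fun _ => h)) s := by
      have := (ContinuousMultilinearMap.apply ℝ (fun _ : Fin i => X) ℝ (fun _ => h)).hasFDerivAt
        (x := iteratedFDeriv ℝ i f (x + s • h)) |>.comp_hasDerivAt s h2
      exact this
    rw [h3.deriv, iteratedFDeriv_succ_apply_left]
    rfl

lemma taylor_bound (f : X → ℝ) (hf : ContDiff ℝ ∞ f) (x h : X) (j : ℕ) (hj : 1 ≤ j) (M : ℝ)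
    (hM : ∀ s ∈ Icc (0 : ℝ) 1, ‖iteratedFDeriv ℝ j f (x + s • h)‖ ≤ M) :
    |f (x + h) - ∑ i ∈ Finset.range j, (1 / (i.factorial : ℝ)) *
      iteratedFDeriv ℝ i f x (fun _ => h)| ≤ M * ‖h‖ ^ j := by
  obtain ⟨n, rfl⟩ : ∃ n, j = n + 1 := ⟨j - 1, by omega⟩
  set g : ℝ → ℝ := fun s => f (x + s • h) with hg
  have hgc : ContDiff ℝ ∞ g := by
    refine hf.comp ?_
    exact contDiff_const.add (contDiff_id.smul contDiff_const)
  have hid : ∀ (i : ℕ) (s : ℝ), s ∈ Icc (0 : ℝ) 1 → iteratedDerivWithin i g (Icc 0 1) s =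
      iteratedFDeriv ℝ i f (x + s • h) (fun _ => h) := by
    intro i s hs
    rw [iteratedDerivWithin_eq_iteratedDeriv (uniqueDiffOn_Icc (by norm_num))
      ((hgc.of_le (by exact_mod_cast le_top)).contDiffAt) hs, iteratedDeriv_line f hf x h i]
  have hM0 : 0 ≤ M := (norm_nonneg _).trans (hM 0 (by simp))
  have key := taylor_mean_remainder_bound (f := g) (a := 0) (b := 1) (x := 1) (n := n)
    (C := M * ‖h‖ ^ (n + 1)) (by norm_num) ((hgc.of_le (by exact_mod_cast le_top)).contDiffOn)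
    (by simp) (fun s hs => by
      rw [hid _ s hs]
      refine ((iteratedFDeriv ℝ (n + 1) f (x + s • h)).le_opNorm _).trans ?_
      rw [Finset.prod_const, Finset.card_univ, Fintype.card_fin]
      exact mul_le_mul_of_nonneg_right (hM s hs) (by positivity))
  rw [taylor_within_apply] at key
  have e1 : g 1 = f (x + h) := by simp [hg]
  have e2 : ∑ k ∈ Finset.range (n + 1), ((k.factorial : ℝ)⁻¹ * (1 - 0) ^ k) •
      iteratedDerivWithin k g (Icc 0 1) 0 = ∑ i ∈ Finset.range (n + 1), (1 / (i.factorial : ℝ)) *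
      iteratedFDeriv ℝ i f x (fun _ => h) := by
    refine Finset.sum_congr rfl fun k _ => ?_
    rw [hid k 0 (by simp), zero_smul, add_zero]
    simp
  rw [e1, e2, Real.norm_eq_abs] at key
  refine key.trans ?_
  rw [sub_zero, one_pow, mul_one]
  refine div_le_self (by positivity) ?_
  exact_mod_cast Nat.one_le_iff_ne_zero.mpr (Nat.factorial_ne_zero n)

/-- Taylor estimate in the form used for the upper estimates. -/
lemma abs_sub_le (f : X → ℝ) (hf : ContDiff ℝ ∞ f) (x h : X) (j : ℕ) (hj : 1 ≤ j) (M τ : ℝ)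
    (hτ0 : 0 ≤ τ) (hM : ∀ s ∈ Icc (0 : ℝ) 1, ‖iteratedFDeriv ℝ j f (x + s • h)‖ ≤ M)
    (hτ : ∀ i, 1 ≤ i → i < j → |iteratedFDeriv ℝ i f x (fun _ => h)| ≤ τ) :
    |f (x + h) - f x| ≤ j * τ + M * ‖h‖ ^ j := by
  have h1 := taylor_bound f hf x h j hj M hM
  obtain ⟨n, rfl⟩ : ∃ n, j = n + 1 := ⟨j - 1, by omega⟩
  rw [Finset.sum_range_succ'] at h1
  simp only [Nat.factorial_zero, Nat.cast_one, iteratedFDeriv_zero_apply] at h1
  have h2 : |∑ k ∈ Finset.range n, (1 / ((k + 1).factorial : ℝ)) *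
      iteratedFDeriv ℝ (k + 1) f x (fun _ => h)| ≤ n * τ := by
    refine (Finset.abs_sum_le_sum_abs _ _).trans ?_
    calc _ ≤ ∑ k ∈ Finset.range n, τ := by
          refine Finset.sum_le_sum fun k hk => ?_
          have hk' := Finset.mem_range.mp hk
          have h3 := hτ (k + 1) (by omega) (by omega)
          rw [abs_mul]
          have h4 : |1 / ((k + 1).factorial : ℝ)| ≤ 1 := by
            rw [abs_of_nonneg (by positivity)]
            rw [div_le_one (by positivity)]
            exact_mod_cast Nat.one_le_iff_ne_zero.mpr (Nat.factorial_ne_zero _)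
          calc _ ≤ 1 * |iteratedFDeriv ℝ (k + 1) f x (fun _ => h)| :=
                mul_le_mul_of_nonneg_right h4 (abs_nonneg _)
            _ ≤ τ := by rw [one_mul]; exact h3
      _ = n * τ := by simp
  have h5 : (n : ℝ) * τ ≤ ((n + 1 : ℕ) : ℝ) * τ := by
    push_cast
    nlinarith
  have h6 := abs_le.mp h1
  have h7 := abs_le.mp h2
  rw [abs_le]
  constructor <;> linarith [h6.1, h6.2, h7.1, h7.2]

/-- second differences -/
lemma second_difference (f : X → ℝ) (hf : ContDiff ℝ ∞ f) (x h : X) (M : ℝ)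
    (hM : ∀ s ∈ Icc (-1 : ℝ) 1, ‖iteratedFDeriv ℝ 2 f (x + s • h)‖ ≤ M) :
    |f (x + h) + f (x - h) - 2 * f x| ≤ 2 * M * ‖h‖ ^ 2 := by
  have h1 := taylor_bound f hf x h 2 (by norm_num) M
    (fun s hs => hM s ⟨by linarith [hs.1], hs.2⟩)
  have h2 := taylor_bound f hf x (-h) 2 (by norm_num) M (fun s hs => by
    have := hM (-s) ⟨by linarith [hs.2], by linarith [hs.1]⟩
    rwa [neg_smul, ← smul_neg] at this)
  rw [Finset.sum_range_succ, Finset.sum_range_one] at h1 h2
  simp only [Nat.factorial_zero, Nat.factorial_one, Nat.cast_one, iteratedFDeriv_zero_apply,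
    iteratedFDeriv_one_apply, div_one, one_mul, map_neg, norm_neg, ← sub_eq_add_neg] at h1 h2
  have h3 := abs_le.mp h1
  have h4 := abs_le.mp h2
  rw [abs_le]
  constructor <;> linarith [h3.1, h3.2, h4.1, h4.2]

/-- derivatives are bounded near compact sets -/
lemma exists_bound_near (f : X → ℝ) (hf : ContDiff ℝ ∞ f) (K : Set X) (hK : IsCompact K) (j : ℕ) :
    ∃ η > 0, ∃ M, 0 ≤ M ∧ ∀ k ∈ K, ∀ h : X, ‖h‖ ≤ η → ‖iteratedFDeriv ℝ j f (k + h)‖ ≤ M := by
  have hc : Continuous (iteratedFDeriv ℝ j f) :=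
    hf.continuous_iteratedFDeriv (by exact_mod_cast le_top)
  obtain ⟨M, hM⟩ := (hK.image hc.norm).bddAbove
  have hopen : IsOpen {y | ‖iteratedFDeriv ℝ j f y‖ < |M| + 1} :=
    isOpen_lt hc.norm continuous_const
  have hsub : K ⊆ {y | ‖iteratedFDeriv ℝ j f y‖ < |M| + 1} := by
    intro y hy
    have h1 : ‖iteratedFDeriv ℝ j f y‖ ≤ M := hM ⟨y, hy, rfl⟩
    have h2 := le_abs_self M
    show ‖iteratedFDeriv ℝ j f y‖ < |M| + 1
    linarith
  obtain ⟨η, hη, hsub2⟩ := hK.exists_cthickening_subset_open hopen hsub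
  refine ⟨η, hη, |M| + 1, by positivity, fun k hk h hh => ?_⟩
  have : k + h ∈ Metric.cthickening η K := by
    refine Metric.mem_cthickening_of_dist_le (k + h) k η K hk ?_
    rw [dist_eq_norm]
    simpa using hh
  exact (hsub2 this).le

end Pool.Agent.Lib.MP_f761d9_an
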