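import Pool.Agent.Lib.MP_f761d9_an.Taylor
import Pool.Agent.Lib.MP_f761d9_an.Select

/-!
# Upper estimates for null sequences
-/

set_option autoImplicit false

namespace Pool.Agent.Lib.MP_f761d9_an

open Filter Topology Set
open scoped ContDiff Pointwise

variable {X : Type*} [NormedAddCommGroup X] [NormedSpace ℝ X]

/-- bounded sequences which are null for all functionals in a given family -/
def NullSeq (𝓕 : Set (X →L[ℝ] ℝ)) (x : ℕ → X) : Prop :=
  (∃ L, ∀ n, ‖x n‖ ≤ L) ∧ ∀ φ ∈ 𝓕, Tendsto (fun n => φ (x n)) atTop (𝓝 0)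

/-- the derivatives of order `i` of `b` vanish asymptotically along null sequences -/
def WProp (𝓕 : Set (X →L[ℝ] ℝ)) (b : X → ℝ) (i : ℕ) : Prop :=
  ∀ p x, NullSeq 𝓕 x → Tendsto (fun n => iteratedFDeriv ℝ i b p (fun _ => x n)) atTop (𝓝 0)

/-- upper `j`-estimate with constant `C` -/
def UpperEst (j : ℕ) (C : ℝ) (y : ℕ → X) : Prop :=
  ∀ (F : Finset ℕ) (a : ℕ → ℝ), ‖∑ n ∈ F, a n • y n‖ ^ j ≤ C * ∑ n ∈ F, |a n| ^ j

/-- pointwise smallness of the `i`-th derivatives implies uniform smallness on compact sets -/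
lemma uniform_small (b : X → ℝ) (hb : ContDiff ℝ ∞ b) (i : ℕ) (x : ℕ → X) (L : ℝ)
    (hL : ∀ n, ‖x n‖ ≤ L)
    (hpt : ∀ p, Tendsto (fun n => iteratedFDeriv ℝ i b p (fun _ => x n)) atTop (𝓝 0))
    (T : Set X) (hT : IsCompact T) (ε : ℝ) (hε : 0 < ε) :
    ∀ᶠ n in atTop, ∀ z ∈ T, |iteratedFDeriv ℝ i b z (fun _ => x n)| ≤ ε := by
  have hL0 : 0 ≤ L := (norm_nonneg _).trans (hL 0)
  have hc : Continuous (iteratedFDeriv ℝ i b) :=
    hb.continuous_iteratedFDeriv (by exact_mod_cast le_top)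
  refine hT.induction_on (p := fun S => ∀ᶠ n in atTop, ∀ z ∈ S,
    |iteratedFDeriv ℝ i b z (fun _ => x n)| ≤ ε) ?_ ?_ ?_ ?_
  · exact Eventually.of_forall fun n z hz => absurd hz (Set.notMem_empty z)
  · intro s t hst ht
    exact ht.mono fun n hn z hz => hn z (hst hz)
  · intro s t hs ht
    filter_upwards [hs, ht] with n h1 h2 z hz
    rcases hz with hz | hz
    · exact h1 z hz
    · exact h2 z hz
  · intro z _
    set r : ℝ := ε / (2 * (L ^ i + 1)) with hr
    have hr0 : 0 < r := by positivity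
    have h1 : {z' | dist (iteratedFDeriv ℝ i b z') (iteratedFDeriv ℝ i b z) < r} ∈ 𝓝 z :=
      hc.continuousAt.eventually (Metric.ball_mem_nhds _ hr0)
    refine ⟨_, mem_nhdsWithin_of_mem_nhds h1, ?_⟩
    have h2 := (Metric.tendsto_nhds.mp (hpt z)) (ε / 2) (by positivity)
    filter_upwards [h2] with n hn z' hz'
    rw [Real.dist_0_eq_abs] at hn
    have h3 : ‖(iteratedFDeriv ℝ i b z' - iteratedFDeriv ℝ i b z) (fun _ => x n)‖ ≤ r * L ^ i := by
      refine ((iteratedFDeriv ℝ i b z' - iteratedFDeriv ℝ i b z).le_opNorm _).trans ?_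
      rw [Finset.prod_const, Finset.card_univ, Fintype.card_fin]
      have h4 : ‖iteratedFDeriv ℝ i b z' - iteratedFDeriv ℝ i b z‖ ≤ r := by
        rw [← dist_eq_norm]
        exact le_of_lt hz'
      exact mul_le_mul h4 (pow_le_pow_left₀ (norm_nonneg _) (hL n) i) (by positivity) hr0.le
    have h5 : r * L ^ i ≤ ε / 2 := by
      have h6 : r * (2 * (L ^ i + 1)) = ε := by rw [hr]; field_simp
      have h7 : 0 ≤ r := hr0.le
      nlinarith
    rw [sub_apply, Real.norm_eq_abs] at h3
    have h8 := abs_le.mp h3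
    have h9 := abs_lt.mp hn
    rw [abs_le]
    constructor <;> linarith [h8.1, h8.2, h9.1, h9.2]

lemma isCompact_span_ball (s : Set X) (hs : s.Finite) (η : ℝ) :
    IsCompact {v : X | v ∈ Submodule.span ℝ s ∧ ‖v‖ ≤ η} := by
  have : FiniteDimensional ℝ (Submodule.span ℝ s) := FiniteDimensional.span_of_finite ℝ hs
  have : ProperSpace (Submodule.span ℝ s) := FiniteDimensional.proper_real _
  have h1 : IsCompact (Metric.closedBall (0 : Submodule.span ℝ s) η) := isCompact_closedBall _ _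
  have h2 := h1.image continuous_subtype_val
  convert h2 using 1
  ext v
  constructor
  · rintro ⟨h3, h4⟩
    exact ⟨⟨v, h3⟩, by simpa using h4, rfl⟩
  · rintro ⟨w, hw, rfl⟩
    exact ⟨w.2, by simpa using hw⟩

/-- Upper estimates from bounded sets: if all combinations with `∑ |a n| ^ j ≤ r` have norm at
most `η`, we get an upper `j`-estimate. -/
lemma upperEst_of_local (j : ℕ) (hj : 1 ≤ j) (y : ℕ → X) (η r : ℝ) (hr : 0 < r)
    (h : ∀ (F : Finset ℕ) (a : ℕ → ℝ), ∑ n ∈ F, |a n| ^ j ≤ r → ‖∑ n ∈ F, a n • y n‖ ≤ η) :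
    UpperEst j (η ^ j / r) y := by
  intro F a
  have hs0 : 0 ≤ ∑ n ∈ F, |a n| ^ j := Finset.sum_nonneg fun _ _ => by positivity
  rcases hs0.eq_or_lt with hs | hs
  · have h1 : ∀ n ∈ F, |a n| ^ j = 0 :=
      (Finset.sum_eq_zero_iff_of_nonneg fun _ _ => by positivity).mp hs.symm
    have h2 : ∑ n ∈ F, a n • y n = 0 := Finset.sum_eq_zero fun n hn => by
      have h3 := pow_eq_zero_iff (by omega : j ≠ 0) |>.mp (h1 n hn)
      rw [abs_eq_zero.mp h3, zero_smul]
    rw [h2, norm_zero, zero_pow (by omega), ← hs, mul_zero]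
  · set s := ∑ n ∈ F, |a n| ^ j with hsdef
    set t : ℝ := (r / s) ^ ((j : ℝ)⁻¹) with ht
    have hrs : 0 < r / s := by positivity
    have ht0 : 0 < t := Real.rpow_pos_of_pos hrs _
    have htj : t ^ j = r / s := by
      rw [ht, Real.rpow_inv_natCast_pow hrs.le (by omega)]
    have h4 : ∑ n ∈ F, |t * a n| ^ j ≤ r := by
      have : ∑ n ∈ F, |t * a n| ^ j = t ^ j * s := by
        rw [hsdef, Finset.mul_sum]
        exact Finset.sum_congr rfl fun n _ => by rw [abs_mul, mul_pow, abs_of_pos ht0]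
      rw [this, htj]
      field_simp
      exact le_refl _
    have h5 := h F (fun n => t * a n) h4
    have h6 : ∑ n ∈ F, (t * a n) • y n = t • ∑ n ∈ F, a n • y n := by
      rw [Finset.smul_sum]
      exact Finset.sum_congr rfl fun n _ => by rw [mul_smul]
    rw [h6, norm_smul, Real.norm_of_nonneg ht0.le] at h5
    have h7 : (t * ‖∑ n ∈ F, a n • y n‖) ^ j ≤ η ^ j := pow_le_pow_left₀ (by positivity) h5 j
    rw [mul_pow, htj] at h7
    rw [div_mul_eq_mul_div, le_div_iff₀ hr]
    rw [div_mul_eq_mul_div, div_le_iff₀ hs] at h7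
    linarith

/-- **Upper estimates.**  If `b` is smooth, the separation property holds, and the derivatives of
orders `1, …, j - 1` of `b` vanish asymptotically along null sequences, then each null sequence has
a subsequence with an upper `j`-estimate. -/
theorem exists_upper (𝓕 : Set (X →L[ℝ] ℝ)) (b : X → ℝ) (hb : ContDiff ℝ ∞ b) (K : Set X)
    (hK : IsCompact K)
    (hsep : ∀ η > 0, ∃ δ > 0, ∃ S : Finset X, (↑S : Set X) ⊆ K ∧
      ∀ h : X, η ≤ ‖h‖ → ∃ k ∈ S, δ < |b (k + h) - b k|)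
    (j : ℕ) (hj : 1 ≤ j) (hW : ∀ i, 1 ≤ i → i < j → WProp 𝓕 b i)
    (x : ℕ → X) (hx : NullSeq 𝓕 x) :
    ∃ σ : ℕ → ℕ, StrictMono σ ∧ ∃ C, 0 < C ∧ UpperEst j C (fun n => x (σ n)) := by
  obtain ⟨⟨L₀, hL₀⟩, hnull⟩ := id hx
  set L : ℝ := max L₀ 1 with hLdef
  have hL : ∀ n, ‖x n‖ ≤ L := fun n => (hL₀ n).trans (le_max_left _ _)
  have hL1 : 1 ≤ L := le_max_right _ _
  have hLpos : 0 < L := by linarith
  obtain ⟨η₀, hη₀, M, hM0, hM⟩ := exists_bound_near b hb K hK j
  set η : ℝ := η₀ / 2 with hη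
  have hηpos : 0 < η := by positivity
  obtain ⟨δ, hδ, S, hSK, hS⟩ := hsep η hηpos
  have hjpos : (0 : ℝ) < j := by exact_mod_cast hj
  set c₀ : ℝ := δ / (4 * j) with hc₀
  have hc₀pos : 0 < c₀ := by positivity
  -- the selection
  obtain ⟨σ, hσ, hsel⟩ := exists_select
    (fun N n => ∀ i, 1 ≤ i → i < j →
      ∀ z ∈ K + {v : X | v ∈ Submodule.span ℝ (x '' Set.Iio N) ∧ ‖v‖ ≤ η},
        |iteratedFDeriv ℝ i b z (fun _ => x n)| ≤ c₀ * (1 / 2) ^ N) (by
      intro N
      have hfin : (Set.Iio j).Finite := Set.finite_Iio j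
      have hcomp : IsCompact (K + {v : X | v ∈ Submodule.span ℝ (x '' Set.Iio N) ∧ ‖v‖ ≤ η}) :=
        hK.add (isCompact_span_ball _ ((Set.finite_Iio N).image x) η)
      have h1 : ∀ i ∈ Set.Iio j, ∀ᶠ n in atTop, 1 ≤ i →
          ∀ z ∈ K + {v : X | v ∈ Submodule.span ℝ (x '' Set.Iio N) ∧ ‖v‖ ≤ η},
            |iteratedFDeriv ℝ i b z (fun _ => x n)| ≤ c₀ * (1 / 2) ^ N := by
        intro i hi
        by_cases hi1 : 1 ≤ i
        · have := uniform_small b hb i x L hL (fun p => hW i hi1 hi p x hx) _ hcomp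
            (c₀ * (1 / 2) ^ N) (by positivity)
          exact this.mono fun n hn _ => hn
        · exact Eventually.of_forall fun n h => absurd h hi1
      have h2 := (hfin.eventually_all (l := atTop)).mpr h1
      exact h2.mono fun n hn i hi1 hij => hn i hij hi1)
  refine ⟨σ, hσ, ?_⟩
  -- local estimate
  set ρ₀ : ℝ := min 1 (η / L) with hρ₀
  have hρ₀pos : 0 < ρ₀ := lt_min one_pos (by positivity)
  set r : ℝ := min (ρ₀ ^ j) (δ / (2 * (M * L ^ j + 1))) with hr
  have hrpos : 0 < r := lt_min (by positivity) (by positivity)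
  refine ⟨η ^ j / r, by positivity, upperEst_of_local j hj _ η r hrpos ?_⟩
  -- initial segments
  have hinit : ∀ a : ℕ → ℝ, (∀ m, ∑ n ∈ Finset.range m, |a n| ^ j ≤ r) → ∀ m,
      ‖∑ n ∈ Finset.range m, a n • x (σ n)‖ ≤ η ∧ ∀ k ∈ K,
        |b (k + ∑ n ∈ Finset.range m, a n • x (σ n)) - b k| ≤
          ∑ n ∈ Finset.range m, (j * (c₀ * (1 / 2) ^ n) + M * L ^ j * |a n| ^ j) := by
    intro a ha m
    have hcoef : ∀ n, |a n| ≤ ρ₀ := by
      intro n
      have h1 : |a n| ^ j ≤ r := by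
        refine le_trans ?_ (ha (n + 1))
        exact Finset.single_le_sum (f := fun n => |a n| ^ j) (fun _ _ => by positivity)
          (Finset.self_mem_range_succ n)
      have h2 : |a n| ^ j ≤ ρ₀ ^ j := h1.trans (min_le_left _ _)
      exact le_of_pow_le_pow_left₀ (by omega) hρ₀pos.le h2
    have htotal : ∀ m, ∑ n ∈ Finset.range m, (j * (c₀ * (1 / 2) ^ n) + M * L ^ j * |a n| ^ j)
        ≤ δ := by
      intro m
      rw [Finset.sum_add_distrib, ← Finset.mul_sum, ← Finset.mul_sum, ← Finset.mul_sum]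
      have h1 : ∑ i ∈ Finset.range m, ((1 : ℝ) / 2) ^ i ≤ 2 := by
        have := hasSum_geom_half 1
        simp only [one_mul, mul_one] at this
        have h2 := sum_le_hasSum (Finset.range m) (fun i _ => by positivity) this
        exact h2
      have h2 : (j : ℝ) * (c₀ * ∑ i ∈ Finset.range m, ((1 : ℝ) / 2) ^ i) ≤ δ / 2 := by
        have h3 : (j : ℝ) * (c₀ * ∑ i ∈ Finset.range m, ((1 : ℝ) / 2) ^ i) ≤ j * (c₀ * 2) := by
          gcongr
        have h4 : (j : ℝ) * (c₀ * 2) = δ / 2 := by rw [hc₀]; field_simp; norm_num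
        linarith
      have h5 : M * L ^ j * ∑ i ∈ Finset.range m, |a i| ^ j ≤ δ / 2 := by
        have h6 : ∑ i ∈ Finset.range m, |a i| ^ j ≤ δ / (2 * (M * L ^ j + 1)) :=
          (ha m).trans (min_le_right _ _)
        have h7 : M * L ^ j * ∑ i ∈ Finset.range m, |a i| ^ j
            ≤ M * L ^ j * (δ / (2 * (M * L ^ j + 1))) :=
          mul_le_mul_of_nonneg_left h6 (by positivity)
        have h8 : M * L ^ j * (δ / (2 * (M * L ^ j + 1))) ≤ δ / 2 := by
          rw [mul_div_assoc', div_le_div_iff₀ (by positivity) (by norm_num)]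
          nlinarith [mul_nonneg hM0 (pow_nonneg hLpos.le j)]
        linarith
      linarith
    induction m with
    | zero =>
      refine ⟨by simp [hηpos.le], fun k _ => by simp⟩
    | succ m ih =>
      obtain ⟨ih1, ih2⟩ := ih
      set Sm := ∑ n ∈ Finset.range m, a n • x (σ n) with hSm
      have hstep : ∀ k ∈ K, |b (k + Sm + a m • x (σ m)) - b (k + Sm)| ≤
          j * (c₀ * (1 / 2) ^ m) + M * L ^ j * |a m| ^ j := by
        intro k hk
        obtain ⟨N, hmN, hσN, hPN⟩ := hsel m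
        have hmem : Sm ∈ Submodule.span ℝ (x '' Set.Iio N) := by
          refine Submodule.sum_mem _ fun n hn => Submodule.smul_mem _ _ ?_
          exact Submodule.subset_span ⟨σ n, hσN n (Finset.mem_range.mp hn), rfl⟩
        have hz : k + Sm ∈ K + {v : X | v ∈ Submodule.span ℝ (x '' Set.Iio N) ∧ ‖v‖ ≤ η} :=
          Set.add_mem_add hk ⟨hmem, ih1⟩
        have ham : |a m| ≤ 1 := (hcoef m).trans (min_le_left _ _)
        have hamL : |a m| * L ≤ η := by
          have h1 : |a m| ≤ η / L := (hcoef m).trans (min_le_right _ _)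
          rwa [le_div_iff₀ hLpos] at h1
        have hnorm : ‖a m • x (σ m)‖ ≤ |a m| * L := by
          rw [norm_smul, Real.norm_eq_abs]
          exact mul_le_mul_of_nonneg_left (hL _) (abs_nonneg _)
        have h2 := abs_sub_le b hb (k + Sm) (a m • x (σ m)) j hj M (c₀ * (1 / 2) ^ m)
          (by positivity) (fun s hs => by
            rw [add_assoc]
            refine hM k hk _ ?_
            have h3 : ‖s • a m • x (σ m)‖ ≤ η := by
              rw [norm_smul, Real.norm_of_nonneg hs.1]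
              have : s * ‖a m • x (σ m)‖ ≤ 1 * ‖a m • x (σ m)‖ :=
                mul_le_mul_of_nonneg_right hs.2 (norm_nonneg _)
              linarith
            refine (norm_add_le _ _).trans ?_
            linarith) (fun i hi1 hij => by
            have h4 : iteratedFDeriv ℝ i b (k + Sm) (fun _ => a m • x (σ m))
                = (a m) ^ i * iteratedFDeriv ℝ i b (k + Sm) (fun _ => x (σ m)) := by
              have := (iteratedFDeriv ℝ i b (k + Sm)).map_smul_univ (fun _ => a m)
                (fun _ => x (σ m))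
              rw [this]
              simp
            rw [h4, abs_mul, abs_pow]
            have h5 : |a m| ^ i ≤ 1 := pow_le_one₀ (abs_nonneg _) ham
            have h6 := hPN i hi1 hij (k + Sm) hz
            have h7 : ((1 : ℝ) / 2) ^ N ≤ (1 / 2) ^ m :=
              pow_le_pow_of_le_one (by norm_num) (by norm_num) hmN
            calc |a m| ^ i * |iteratedFDeriv ℝ i b (k + Sm) fun _ => x (σ m)|
                ≤ 1 * (c₀ * (1 / 2) ^ N) := mul_le_mul h5 h6 (abs_nonneg _) (by norm_num)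
              _ ≤ c₀ * (1 / 2) ^ m := by
                rw [one_mul]
                exact mul_le_mul_of_nonneg_left h7 hc₀pos.le)
        refine h2.trans ?_
        have h8 : ‖a m • x (σ m)‖ ^ j ≤ (|a m| * L) ^ j := pow_le_pow_left₀ (norm_nonneg _) hnorm j
        have h9 : M * ‖a m • x (σ m)‖ ^ j ≤ M * L ^ j * |a m| ^ j := by
          calc M * ‖a m • x (σ m)‖ ^ j ≤ M * (|a m| * L) ^ j := mul_le_mul_of_nonneg_left h8 hM0
            _ = M * L ^ j * |a m| ^ j := by rw [mul_pow]; ring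
        linarith
      have hsum : ∀ k ∈ K, |b (k + ∑ n ∈ Finset.range (m + 1), a n • x (σ n)) - b k| ≤
          ∑ n ∈ Finset.range (m + 1), (j * (c₀ * (1 / 2) ^ n) + M * L ^ j * |a n| ^ j) := by
        intro k hk
        rw [Finset.sum_range_succ, Finset.sum_range_succ, ← hSm, ← add_assoc]
        have h1 := abs_le.mp (ih2 k hk)
        have h2 := abs_le.mp (hstep k hk)
        rw [abs_le]
        constructor <;> linarith [h1.1, h1.2, h2.1, h2.2]
      refine ⟨?_, hsum⟩
      by_contra hcon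
      obtain ⟨k, hkS, hk⟩ := hS _ (le_of_lt (not_le.mp hcon))
      have h1 := hsum k (hSK hkS)
      have h2 := htotal (m + 1)
      linarith
  intro F a ha
  set a' : ℕ → ℝ := fun n => if n ∈ F then a n else 0 with ha'
  obtain ⟨m, hm⟩ := F.exists_nat_subset_range
  have h1 : ∀ m, ∑ n ∈ Finset.range m, |a' n| ^ j ≤ r := by
    intro m
    refine le_trans ?_ ha
    have h2 : ∑ n ∈ Finset.range m, |a' n| ^ j = ∑ n ∈ (Finset.range m).filter (· ∈ F), |a n| ^ j := by
      rw [Finset.sum_filter]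
      refine Finset.sum_congr rfl fun n _ => ?_
      simp only [ha']
      split_ifs with h
      · rfl
      · rw [abs_zero, zero_pow (by omega)]
    rw [h2]
    refine Finset.sum_le_sum_of_subset_of_nonneg ?_ fun _ _ _ => by positivity
    intro n hn
    exact (Finset.mem_filter.mp hn).2
  have h3 := (hinit a' h1 m).1
  have h4 : ∑ n ∈ Finset.range m, a' n • x (σ n) = ∑ n ∈ F, a n • x (σ n) := by
    rw [← Finset.sum_subset hm]
    · refine Finset.sum_congr rfl fun n hn => ?_
      simp only [ha', if_pos hn]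
    · intro n _ hn
      simp only [ha', if_neg hn, zero_smul]
  rwa [h4] at h3

end Pool.Agent.Lib.MP_f761d9_an
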